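import Pool.Agent.MP_5f6c2d_pr.Null

/-! A U-shaped tube above the wall of level zero. -/

set_option autoImplicit false

namespace Pool.Agent.MP_5f6c2d_pr

def Cons (l : List (V × Fin 3)) : Prop := ∀ x ∈ l, ∀ y ∈ l, x.1 = y.1 → x.2 = y.2

instance (l : List (V × Fin 3)) : Decidable (Cons l) := by unfold Cons; infer_instance

def combos : List (St × List (Fin 3) × List (Fin 3) × List (Fin 3)) :=
  [(mk0 (0,1,0) (0,1,1), [0,1,1,2,0,2,0,1,2,0,2,1,2,0], [0,1,2], [2,1,0]),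
   (mk0 (0,0,1) (0,-1,0), [1,2,0,1,2,1,2,0,1,0,1,2,0,1], [2,0,1], [1,0,2]),
   (mk0 (0,1,1) (0,0,1), [0,1,2,2,0,2,0,1,2,1,2,0,2,1], [0,2,1], [1,2,0]),
   (mk0 (0,-1,0) (0,-1,-1), [0,2,1,2,0,2,1,0,2,0,2,1,1,0], [2,1,0], [0,1,2]),
   (mk0 (0,0,-1) (0,1,0), [1,0,2,1,0,1,0,2,1,2,1,0,2,1], [1,0,2], [2,0,1]),
   (mk0 (0,-1,-1) (0,0,-1), [0,1,2,1,0,1,2,0,1,0,1,2,2,0], [1,2,0], [0,2,1])]

lemma combos_mem : ∀ u ∈ nb, ∀ v ∈ nb, v - u ∈ nb → u.1 = 0 → v.1 = 0 → (ap (mk0 u v)).1 = 1 →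
    ∃ x ∈ combos, x.1 = mk0 u v := by decide +kernel

lemma combos_ok : ∀ x ∈ combos,
    (fin x.1 x.2.1 = tr (0,2,2) (rf ∘ x.1) ∧
      (∀ y ∈ prs x.1 x.2.1, 1 ≤ y.1.1 ∨ tr (0,2,2) (rf ∘ x.1) y.2 = y.1) ∧ Cons (prs x.1 x.2.1)) ∧
    (x.2.2.1.length = 3 ∧ fin x.1 x.2.2.1 = tr (1,1,1) x.1 ∧
      ∀ y ∈ prs x.1 x.2.2.1, tr (1,1,1) x.1 y.2 = y.1) ∧
    (x.2.2.2.length = 3 ∧ fin x.1 x.2.2.2 = tr (1,0,0) x.1 ∧
      ∀ y ∈ prs x.1 x.2.2.2, tr (1,0,0) x.1 y.2 = y.1) ∧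
    Valid x.1 ∧ (∀ c, (x.1 c).1 = 0) ∧
    (∀ c c', (x.1 c).2.1 + (x.1 c).2.2 ≤ (x.1 c').2.1 + (x.1 c').2.2 + 2) := by decide +kernel

lemma block {f : St} {w : List (Fin 3)} {v : V}
    (h : w.length = 3 ∧ fin f w = tr v f ∧ ∀ y ∈ prs f w, tr v f y.2 = y.1) {ω : Cf}
    (hg : Good ω (tr v f)) : o ω f 3 = tr v f := by
  rw [← h.1, o_word ω w f (fun y hy => by rw [← h.2.2 y hy]; exact hg.2 _), h.2.1]

def wj (j : ℕ) : V := (0, (j : ℤ) + 2, (j : ℤ) + 2)

def lst (f : St) : List (V × Fin 3) := [(f 0, 0), (f 1, 1), (f 2, 2)]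

lemma mem_lst {f : St} {x : V × Fin 3} (h : x ∈ lst f) : f x.2 = x.1 := by
  simp only [lst, List.mem_cons, List.not_mem_nil, or_false] at h
  rcases h with rfl | rfl | rfl <;> rfl

lemma good_of_lst {ω : Cf} {f : St} (hf : Valid f) (h : Sat ω (lst f)) : Good ω f := by
  refine ⟨hf, fun c => ?_⟩
  fin_cases c
  · exact h (f 0, 0) (by simp [lst])
  · exact h (f 1, 1) (by simp [lst])
  · exact h (f 2, 2) (by simp [lst])

lemma tube_aux (x : St × List (Fin 3) × List (Fin 3) × List (Fin 3)) (hx : x ∈ combos) (j : ℕ) :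
    ∃ (l : List (V × Fin 3)) (N : ℕ), (∀ y ∈ l, 1 ≤ y.1.1) ∧ Cons l ∧
      ∀ ω, Sat ω l → Good ω (tr (wj j) (rf ∘ x.1)) → o ω x.1 N = tr (wj j) (rf ∘ x.1) := by
  obtain ⟨⟨g1, g2, g3⟩, hA, hB, hv, h0, hψ⟩ := combos_ok x hx
  set f := x.1 with hf
  induction j with
  | zero =>
    refine ⟨(prs f x.2.1).filter (fun y => decide (1 ≤ y.1.1)), x.2.1.length, ?_, ?_, ?_⟩
    · intro y hy; simpa using (List.mem_filter.1 hy).2
    · intro y hy z hz
      exact g3 y (List.mem_filter.1 hy).1 z (List.mem_filter.1 hz).1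
    · intro ω hs hg
      have e : wj 0 = (0,2,2) := by simp [wj]
      rw [e] at hg ⊢
      rw [o_word ω _ f, g1]
      intro y hy
      rcases g2 y hy with h | h
      · exact hs y (List.mem_filter.2 ⟨hy, by simpa using h⟩)
      · rw [← h]; exact hg.2 _
  | succ j ih =>
    obtain ⟨l, N, hl, hc, hN⟩ := ih
    have hvr := (rf_facts f hv).1
    have ew : wj j + (1,1,1) = (1,0,0) + wj (j + 1) := by
      simp [wj]; ring
    refine ⟨lst (tr (1,1,1) f) ++ lst (tr (wj j + (1,1,1)) (rf ∘ f)) ++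
      l.map (fun y => (y.1 + (1,1,1), y.2)), 3 + N + 3, ?_, ?_, ?_⟩
    · intro y hy
      simp only [List.mem_append, List.mem_map] at hy
      rcases hy with (hy | hy) | ⟨z, hz, rfl⟩
      · rw [← mem_lst hy]; simp [h0]
      · rw [← mem_lst hy]; simp [h0, wj]
      · have := hl z hz; simp; omega
    · have sep : ∀ c c', tr (1,1,1) f c ≠ tr (wj j + (1,1,1)) (rf ∘ f) c' := by
        intro c c' h
        have h1 := congrArg (fun v : V => v.2.1 + v.2.2) h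
        have := hψ c c'
        simp [wj, rf] at h1
        omega
      have l1 : ∀ y ∈ lst (tr (1,1,1) f), y.1.1 = 1 := by
        intro y hy; rw [← mem_lst hy]; simp [h0]
      have l2 : ∀ y ∈ lst (tr (wj j + (1,1,1)) (rf ∘ f)), y.1.1 = 1 := by
        intro y hy; rw [← mem_lst hy]; simp [h0, wj]
      intro y hy z hz hyz
      simp only [List.mem_append, List.mem_map] at hy hz
      rcases hy with (hy | hy) | ⟨y', hy', rfl⟩ <;> rcases hz with (hz | hz) | ⟨z', hz', rfl⟩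
      · exact valid_inj _ ((valid_tr _ _).2 hv) (by rw [mem_lst hy, mem_lst hz, hyz])
      · exact absurd (by rw [mem_lst hy, mem_lst hz, hyz]) (sep y.2 z.2)
      · have := l1 y hy; have := hl z' hz'; have := congrArg Prod.fst hyz; simp at this; omega
      · exact absurd (by rw [mem_lst hy, mem_lst hz, hyz]) (sep z.2 y.2)
      · exact valid_inj _ ((valid_tr _ _).2 hvr) (by rw [mem_lst hy, mem_lst hz, hyz])
      · have := l2 y hy; have := hl z' hz'; have := congrArg Prod.fst hyz; simp at this; omega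
      · have := l1 z hz; have := hl y' hy'; have := congrArg Prod.fst hyz; simp at this; omega
      · have := l2 z hz; have := hl y' hy'; have := congrArg Prod.fst hyz; simp at this; omega
      · exact hc y' hy' z' hz' (by simpa using hyz)
    · intro ω hs hg
      have gA : Good ω (tr (1,1,1) f) :=
        good_of_lst ((valid_tr _ _).2 hv) (fun y hy => hs y (by simp [hy]))
      have gB : Good ω (tr (wj j + (1,1,1)) (rf ∘ f)) :=
        good_of_lst ((valid_tr _ _).2 hvr) (fun y hy => hs y (by simp [hy]))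
      have s3 : Sat (sh (1,1,1) ω) l := fun y hy =>
        hs (y.1 + (1,1,1), y.2) (List.mem_append_right _ (List.mem_map.2 ⟨y, hy, rfl⟩))
      have e2 := hN _ s3 (by rw [← good_tr, tr_tr]; exact gB)
      have g0 : Good (sh (wj (j + 1)) ω ∘ rf) f := ⟨hv, hg.2⟩
      have g1' : Good (sh (wj (j + 1)) ω ∘ rf) (tr (1,0,0) f) := by
        refine ⟨(valid_tr _ _).2 hv, fun c => ?_⟩
        have := gB.2 c
        rw [ew, tr_apply, ← add_assoc] at this
        exact this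
      have e3 := o_rf (sh (wj (j + 1)) ω) g0 3 3 le_rfl
      rw [block hB g1'] at e3
      rw [o_add, o_add, block hA gA, o_tr, e2, tr_tr, ew, ← tr_tr, o_tr]
      exact congrArg _ e3

lemma tube {f : St} (hf : Valid f) (h0 : f 0 = 0) (h1 : (f 1).1 = 0) (h2 : (f 2).1 = 0)
    (hup : (ap f).1 = 1) (j : ℕ) :
    ∃ (l : List (V × Fin 3)) (N : ℕ), (∀ y ∈ l, 1 ≤ y.1.1) ∧ Cons l ∧
      ∀ ω, Sat ω l → Good ω (tr (wj j) (rf ∘ f)) → o ω f N = tr (wj j) (rf ∘ f) := by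
  have e : f = mk0 (f 1) (f 2) := by
    funext c; fin_cases c <;> simp [mk0, h0]
  obtain ⟨x, hx, hxe⟩ := combos_mem (f 1) (by simpa [h0] using hf.1) (f 2)
    (by simpa [h0] using hf.2.1) hf.2.2 h1 h2 (by rw [← e]; exact hup)
  rw [e, ← hxe]
  exact tube_aux x hx j

end Pool.Agent.MP_5f6c2d_pr
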