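import Mathlib.Order.CompletePartialOrder
import Pool.Agent.MP_5f6c2d_pr.Tube

-- ======== part 0: formerly Pool.Agent.MP_5f6c2d_pr.Kill
section MrgPart0

/-! The density of paths crossing a slab tends to zero with the height of the slab. -/

set_option autoImplicit false
set_option linter.unusedSectionVars false

open MeasureTheory Set Filter Topology
open scoped ENNReal

namespace Pool.Agent.MP_5f6c2d_pr

variable {ν : Measure (Fin 3)} [IsProbabilityMeasure ν]

def Rel (a b : ℤ) (ω : Cf) (f g : St) : Prop :=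
  Good ω f ∧ Hs f = a ∧ Hs g = b ∧
    ∃ t, o ω f t = g ∧ ∀ k, 0 < k → k < t → a < Hs (o ω f k) ∧ Hs (o ω f k) < b

def Sta (a b : ℤ) (ω : Cf) (f : St) : Prop := ∃ g, Rel a b ω f g
def End (a b : ℤ) (ω : Cf) (g : St) : Prop := ∃ f, Rel a b ω f g

lemma meas_rel (a b : ℤ) (f g : St) : Measurable (fun ω => Rel a b ω f g) := by
  unfold Rel
  refine (meas_good f).and (measurable_const.and (measurable_const.and
    (Measurable.exists (fun t => (meas_Q (fun x => x = g) f t).and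
      (Measurable.forall (fun k => measurable_const.imp (measurable_const.imp
        (meas_Q (fun x => a < Hs x ∧ Hs x < b) f k))))))))

lemma meas_sta (a b : ℤ) (f : St) : MeasurableSet {ω | Sta a b ω f} :=
  measurableSet_setOfPred.2 (Measurable.exists (fun g => meas_rel a b f g))

lemma meas_end (a b : ℤ) (g : St) : MeasurableSet {ω | End a b ω g} :=
  measurableSet_setOfPred.2 (Measurable.exists (fun f => meas_rel a b f g))

lemma rel_fun {a b : ℤ} (hab : a < b) {ω : Cf} {f g g' : St} (h : Rel a b ω f g)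
    (h' : Rel a b ω f g') : g = g' := by
  obtain ⟨_, ha, hb, t, ht, hk⟩ := h
  obtain ⟨_, _, hb', t', ht', hk'⟩ := h'
  rcases lt_trichotomy t t' with hlt | rfl | hlt
  · have h0 : 0 < t := by
      rcases Nat.eq_zero_or_pos t with rfl | h0
      · simp only [o_zero] at ht; subst ht; omega
      · exact h0
    have := (hk' t h0 hlt).2
    rw [ht] at this; omega
  · rw [← ht, ht']
  · have h0 : 0 < t' := by
      rcases Nat.eq_zero_or_pos t' with rfl | h0
      · simp only [o_zero] at ht'; subst ht'; omega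
      · exact h0
    have := (hk t' h0 hlt).2
    rw [ht'] at this; omega

lemma rel_inj_aux {a b : ℤ} (hab : a < b) {ω : Cf} {f f' g : St} {t t' : ℕ} (hf : Good ω f)
    (hf' : Good ω f') (ha : Hs f = a) (hb : Hs g = b) (ht : o ω f t = g) (ht' : o ω f' t' = g)
    (hk' : ∀ k, 0 < k → k < t' → a < Hs (o ω f' k) ∧ Hs (o ω f' k) < b) (hle : t ≤ t') :
    f = f' := by
  have e := o_meet hf hf' hle (ht.trans ht'.symm)
  rcases Nat.eq_zero_or_pos (t' - t) with h0 | h0
  · rw [e, h0]; rfl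
  · have h1 : 0 < t := by
      rcases Nat.eq_zero_or_pos t with rfl | h1
      · simp only [o_zero] at ht; subst ht; omega
      · exact h1
    have := (hk' (t' - t) h0 (by omega)).1
    rw [← e] at this; omega

lemma rel_inj {a b : ℤ} (hab : a < b) {ω : Cf} {f f' g : St} (h : Rel a b ω f g)
    (h' : Rel a b ω f' g) : f = f' := by
  obtain ⟨hf, ha, hb, t, ht, hk⟩ := h
  obtain ⟨hf', ha', _, t', ht', hk'⟩ := h'
  rcases le_total t t' with hle | hle
  · exact rel_inj_aux hab hf hf' ha hb ht ht' hk' hle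
  · exact (rel_inj_aux hab hf' hf ha' hb ht' ht hk hle).symm

lemma rel_tr (a b : ℤ) (ω : Cf) (w : V) (f g : St) :
    Rel (a + 3 * w.1) (b + 3 * w.1) ω (tr w f) (tr w g) ↔ Rel a b (sh w ω) f g := by
  unfold Rel
  simp only [good_tr, Hs_tr, o_tr, add_left_inj, add_lt_add_iff_right]
  refine and_congr_right (fun _ => and_congr_right (fun _ => and_congr_right (fun _ =>
    exists_congr (fun t => and_congr_left (fun _ => ⟨tr_inj w, fun h => by rw [h]⟩)))))

lemma rel_tr0 (a b : ℤ) (ω : Cf) (w : V) (f g : St) (hw : w.1 = 0) :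
    Rel a b ω (tr w f) (tr w g) ↔ Rel a b (sh w ω) f g := by
  rw [← rel_tr, hw]; simp

lemma dens_sta_end {a b : ℤ} (hab : a < b) : dens ν (Sta a b) = dens ν (End a b) := by
  apply le_antisymm
  · have := mt_le (ν := ν) (Rel a b) (Sta a b) (End a b) 1
      (fun f g => measurableSet_setOfPred.2 (meas_rel a b f g)) (fun ω w f g hw => rel_tr0 a b ω w f g hw)
      (fun ω f ⟨g, hg⟩ => ⟨{g}, by simp, by simpa using hg⟩) (meas_sta a b)
      (fun ω f f' g h h' => rel_inj hab h h') (fun ω f g h => ⟨f, h⟩)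
    simpa using this
  · have := mt_le (ν := ν) (fun ω g f => Rel a b ω f g) (End a b) (Sta a b) 1
      (fun g f => measurableSet_setOfPred.2 (meas_rel a b f g)) (fun ω w g f hw => rel_tr0 a b ω w f g hw)
      (fun ω g ⟨f, hf⟩ => ⟨{f}, by simp, by simpa using hf⟩) (meas_end a b)
      (fun ω g g' f h h' => rel_fun hab h h') (fun ω g f h => ⟨g, h⟩)
    simpa using this

lemma dens_end_shift (a b k : ℤ) : dens ν (End (a + 3 * k) (b + 3 * k)) = dens ν (End a b) := by
  refine dens_shift _ _ k (meas_end a b) (fun ω g => ⟨?_, ?_⟩)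
  · rintro ⟨f, hf⟩
    refine ⟨tr (-(k, 0)) f, (rel_tr a b ω (k, 0) _ g).1 ?_⟩
    rwa [tr_tr, neg_add_cancel, tr_zero]
  · rintro ⟨f, hf⟩
    exact ⟨tr (k, 0) f, (rel_tr a b ω (k, 0) f g).2 hf⟩

lemma end_of_path {a b : ℤ} (hab : a < b) {ω : Cf} {f : St} (hf : Good ω f) (ha : Hs f ≤ a)
    {t : ℕ} (hb : Hs (o ω f t) = b) (hk : ∀ k < t, Hs (o ω f k) < b) : End a b ω (o ω f t) := by
  classical
  have hs := Nat.findGreatest_spec (P := fun s => Hs (o ω f s) ≤ a) (Nat.zero_le t) ha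
  have hle := Nat.findGreatest_le (P := fun s => Hs (o ω f s) ≤ a) t
  have hgt : ∀ k, Nat.findGreatest (fun s => Hs (o ω f s) ≤ a) t < k → k ≤ t →
      a < Hs (o ω f k) := fun k h1 h2 => not_le.1 (Nat.findGreatest_is_greatest h1 h2)
  set s := Nat.findGreatest (fun s => Hs (o ω f s) ≤ a) t
  have hlt : s < t := by
    rcases hle.lt_or_eq with h | h
    · exact h
    · rw [h] at hs; omega
  have h1 := hgt (s + 1) (by omega) hlt
  have h2 := (Hs_nxt (ω := ω) (valid_o (ω := ω) hf.1 s)).1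
  rw [← o_succ] at h2
  refine ⟨o ω f s, good_o hf s, by omega, hb, t - s, by rw [← o_add]; congr 1; omega, ?_⟩
  intro k h0 hkt
  rw [← o_add]
  exact ⟨hgt _ (by omega) (by omega), hk _ (by omega)⟩

lemma first_hit {b : ℤ} {ω : Cf} {f : St} (hf : Valid f) (h0 : Hs f ≤ b) {T : ℕ}
    (hT : b ≤ Hs (o ω f T)) : ∃ t ≤ T, Hs (o ω f t) = b ∧ ∀ k < t, Hs (o ω f k) < b := by
  classical
  have hex : ∃ t, b ≤ Hs (o ω f t) := ⟨T, hT⟩
  have hlt : ∀ k < Nat.find hex, Hs (o ω f k) < b := fun k hk => not_le.1 (Nat.find_min hex hk)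
  refine ⟨Nat.find hex, Nat.find_min' hex hT, ?_, hlt⟩
  have h1 := Nat.find_spec hex
  rcases h : Nat.find hex with _ | s
  · rw [h] at h1; simp only [o_zero] at h1 ⊢; omega
  · have h2 := hlt s (by omega)
    have h3 := (Hs_nxt (ω := ω) (valid_o (ω := ω) hf s)).1
    rw [← o_succ] at h3
    rw [h] at h1; omega

lemma sta_mono {a b b' : ℤ} (hab : a < b) (hb : b ≤ b') {ω : Cf} {f : St} (h : Sta a b' ω f) :
    Sta a b ω f := by
  obtain ⟨g, hf, ha, hg, T, hT, hk⟩ := h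
  obtain ⟨t, htT, ht, hlt⟩ := first_hit (b := b) (ω := ω) hf.1 (by omega) (T := T)
    (by rw [hT]; omega)
  exact ⟨o ω f t, hf, ha, ht, t, rfl, fun k h0 h1 => ⟨(hk k h0 (by omega)).1, hlt k h1⟩⟩

lemma rel_lt {a b : ℤ} (hab : a < b) {ω : Cf} {f : St} {t : ℕ} (ha : Hs f = a)
    (hk : ∀ k, 0 < k → k < t → a < Hs (o ω f k) ∧ Hs (o ω f k) < b) :
    ∀ k < t, Hs (o ω f k) < b := by
  intro k hkt
  rcases Nat.eq_zero_or_pos k with rfl | h0
  · simp only [o_zero]; omega
  · exact (hk k h0 hkt).2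

lemma end_mono {a a' b : ℤ} (hab : a < b) (ha : a' ≤ a) {ω : Cf} {g : St} (h : End a' b ω g) :
    End a b ω g := by
  obtain ⟨f, hf, ha', hg, T, hT, hk⟩ := h
  rw [← hT] at hg ⊢
  exact end_of_path hab hf (by omega) hg (rel_lt (by omega) ha' hk)

def up (m : ℤ) : Set V := {v | m < v.1}

lemma off_end {a : ℤ} (ha : a < 0) (g : St) : Off (up 0) {ω | End a 0 ω g} := by
  rintro ω ω' hh ⟨f, hf, ha', hg, T, hT, hk⟩
  have hle : ∀ k ≤ T, Hs (o ω f k) ≤ 3 * 0 := by
    intro k hkT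
    rcases hkT.lt_or_eq with h | rfl
    · exact (rel_lt ha ha' hk k h).le
    · rw [hT]; omega
  have hc := o_congr (ω := ω) (ω' := ω') (f := f) T (fun k hkT => hh _ (by
    have := lev_le_of_Hs _ (valid_o hf.1 (k + 1)) 0 (hle (k + 1) hkT) (ω (ap (o ω f k)))
    rw [o_succ, nxt_ap] at this
    simpa [up] using this))
  refine ⟨f, ⟨hf.1, fun c => ?_⟩, ha', hg, T, by rw [hc T le_rfl, hT], fun k h0 h1 => ?_⟩
  · rw [hh _ (by simpa [up] using lev_le_of_Hs _ hf.1 0 (hle 0 (Nat.zero_le _)) c), hf.2]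
  · rw [hc k h1.le]; exact hk k h0 h1

noncomputable def pii (ν : Measure (Fin 3)) (h : ℕ) : ℝ≥0∞ := dens ν (End (-3 * ((h : ℤ) + 1)) 0)

lemma pii_ne_top (h : ℕ) : pii ν h ≠ ∞ := by
  refine ne_top_of_le_ne_top (b := 196 * (1 : ℕ)) (by simp) (dens_slab _ 0 1 ?_)
  rintro ω g ⟨f, hf, _, hg, T, hT, _⟩
  have hv : Valid g := hT ▸ valid_o hf.1 T
  have h1 := lev_le_of_Hs g hv 0 (by omega) 0
  have h2 := le_lev_of_Hs g hv 0 (by omega) 0
  exact ⟨hv, h2, by omega⟩

def K2 (a b : ℤ) (ω : Cf) (g : St) : Prop :=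
  End a 0 ω g ∧ ∃ t, Hs (o ω g t) = a ∧ ∀ k ≤ t, Hs (o ω g k) < b

lemma meas_ret (a b : ℤ) (g : St) :
    Measurable (fun ω => ∃ t, Hs (o ω g t) = a ∧ ∀ k ≤ t, Hs (o ω g k) < b) :=
  Measurable.exists (fun t => (meas_Q (fun x => Hs x = a) g t).and
    (Measurable.forall (fun k => measurable_const.imp (meas_Q (fun x => Hs x < b) g k))))

lemma kill_ineq (h r : ℕ) :
    pii ν (h + r) + dens ν (K2 (-3 * ((h : ℤ) + 1)) (3 * r)) ≤ pii ν h := by
  set a : ℤ := -3 * ((h : ℤ) + 1) with ha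
  have ha0 : a < 0 := by omega
  have e1 : pii ν (h + r) = dens ν (Sta a (3 * r)) := by
    rw [dens_sta_end (by omega), pii, ← dens_end_shift _ _ r]
    congr 2
    · push_cast; omega
    · omega
  have e2 : dens ν (K2 a (3 * r)) ≤ dens ν (fun ω f => Sta a 0 ω f ∧ ¬ Sta a (3 * r) ω f) := by
    have := mt_le (ν := ν) (fun ω g f => Rel a 0 ω f g ∧
        ∃ t, Hs (o ω g t) = a ∧ ∀ k ≤ t, Hs (o ω g k) < 3 * r) (K2 a (3 * r))
      (fun ω f => Sta a 0 ω f ∧ ¬ Sta a (3 * r) ω f) 1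
      (fun g f => measurableSet_setOfPred.2 ((meas_rel a 0 f g).and (meas_ret a _ g)))
      (fun ω w g f hw => by
        rw [rel_tr0 a 0 ω w f g hw]
        simp only [o_tr, Hs_tr, hw, mul_zero, add_zero])
      (fun ω g ⟨⟨f, hf⟩, h2⟩ => ⟨{f}, by simp, by simpa using ⟨hf, by simpa using h2⟩⟩)
      (fun g => (meas_end a 0 g).inter (measurableSet_setOfPred.2 (meas_ret a _ g)))
      (fun ω g g' f h h' => rel_fun ha0 h.1 h'.1)
      (fun ω g f ⟨hr, t, ht, hk⟩ => ⟨⟨g, hr⟩, ?_⟩)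
    · simpa using this
    rintro ⟨g', _, _, hb', T, hT, hk'⟩
    obtain ⟨_, hfa, hg0, s, hs, hk0⟩ := hr
    have hlt : ∀ k ≤ s + t, Hs (o ω f k) < 3 * r := by
      intro k hk1
      rcases lt_or_ge k s with h1 | h1
      · have := rel_lt ha0 hfa hk0 k h1; omega
      · obtain ⟨k', rfl⟩ := Nat.exists_eq_add_of_le h1
        rw [o_add, hs]; exact hk k' (by omega)
    have hT' : s + t < T := by
      by_contra hh
      have := hlt T (by omega)
      rw [hT] at this; omega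
    have hs0 : 0 < s := by
      rcases Nat.eq_zero_or_pos s with rfl | h0
      · simp only [o_zero] at hs; subst hs; omega
      · exact h0
    have := (hk' (s + t) (by omega) hT').1
    rw [o_add, hs] at this; omega
  rw [e1, pii, ← dens_sta_end ha0]
  refine (add_le_add le_rfl e2).trans ?_
  unfold dens
  rw [← ENNReal.tsum_add]
  refine ENNReal.tsum_le_tsum (fun f => ?_)
  rw [← measure_union' _ (meas_sta _ _ _)]
  · refine measure_mono ?_
    rintro ω (h1 | h1)
    · exact sta_mono ha0 (by omega) h1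
    · exact h1.1
  · exact Set.disjoint_left.2 (fun ω h1 h2 => h2.2 h1)

def Ainf (f : St) : Set Cf := ⋂ h : ℕ, {ω | End (-3 * ((h : ℤ) + 1)) 0 ω f}

lemma end_up {ω : Cf} {g : St} (h : End (-3) 0 ω g) :
    Valid g ∧ (∀ c, (g c).1 = 0) ∧ (ap g).1 = 1 := by
  obtain ⟨f, hf, ha, hg, T, hT, hk⟩ := h
  have hv : Valid g := hT ▸ valid_o hf.1 T
  have h0 : ∀ c, (g c).1 = 0 := fun c =>
    le_antisymm (lev_le_of_Hs g hv 0 (by omega) c) (le_lev_of_Hs g hv 0 (by omega) c)
  refine ⟨hv, h0, ?_⟩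
  rcases T with _ | s
  · simp only [o_zero] at hT; subst hT; omega
  have h1 := rel_lt (by omega) ha hk s (by omega)
  have hvs := valid_o (ω := ω) hf.1 s
  rw [o_succ] at hT
  have h2 := am_nxt (ω := ω) hvs
  have h3 : Hs (nxt ω (o ω f s)) = _ := Hs_update _ _ _
  have h4 := h0 (ω (ap (o ω f s)))
  rw [← hT, nxt_ap] at h4
  rw [← h2, hT] at h3
  have h5 := wall g hv (by rw [h0, h0]) (by rw [h0, h0])
  have h6 := L_near g hv 0
  unfold L at h6
  rw [h0] at h5 h6
  omega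

lemma Ainf_null {q : ℝ≥0∞} (hq : ∀ c, q ≤ ν {c}) (hq0 : q ≠ 0) (f : St) (hf : (f 0).2 = 0) :
    PP V ν (Ainf f) = 0 := by
  by_contra hpos
  have hAm : MeasurableSet (Ainf f) := MeasurableSet.iInter (fun h => meas_end _ _ _)
  have hAo : Off (up 0) (Ainf f) := fun ω ω' hh hm =>
    mem_iInter.2 (fun h => off_end (by omega) f ω ω' hh (mem_iInter.1 hm h))
  obtain ⟨ω0, hω0⟩ := nonempty_of_measure_ne_zero hpos
  obtain ⟨hv, h0, hup⟩ := end_up (ω := ω0) (g := f) (by simpa using mem_iInter.1 hω0 0)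
  obtain ⟨j, hj⟩ := mix_pos hAm hpos (fun j v => rf v + wj j)
    (fun j v v' h => by
      have := congrArg rf (add_right_cancel h)
      simpa using this)
    (fun F => by
      obtain ⟨C, hC⟩ := (F.image (fun v : V => (|v.2.1| + |v.2.2|).toNat)).exists_le
      refine ⟨2 * C, fun v hv hv' => ?_⟩
      have h1 := hC _ (Finset.mem_image_of_mem _ hv)
      have h2 := hC _ (Finset.mem_image_of_mem _ hv')
      simp only [wj, rf, Prod.snd_add, Prod.fst_add] at h1 h2
      have := abs_nonneg v.2.1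
      have := neg_abs_le v.2.2
      have := le_abs_self (v.2.2 + (((2 * C : ℕ) : ℤ) + 2))
      have := abs_nonneg (v.2.1 + (((2 * C : ℕ) : ℤ) + 2))
      omega)
  obtain ⟨l, N, hl, hc, hN⟩ := tube hv (Prod.ext (h0 0) hf) (h0 1) (h0 2) hup j
  obtain ⟨σ, hσ⟩ := exists_sat l hc
  set B : Set Cf := {ω | ω ∘ (fun v => rf v + wj j) ∈ Ainf f} with hB
  have hBm : MeasurableSet B := meas_comp _ hAm
  have hBo : Off (up 0) B := fun ω ω' hh hm =>
    hAo _ _ (fun v hv => hh _ (by simpa [up, wj] using hv)) hm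
  set δ := q ^ l.length * PP V ν (Ainf f ∩ B) with hδ
  have hδ0 : δ ≠ 0 := mul_ne_zero (pow_ne_zero _ hq0) hj
  have hle : δ ≤ PP V ν ((Ainf f ∩ B) ∩ {ω | Sat ω l}) := by
    rw [indep_eq (up 0) (hAm.inter hBm) (meas_sat l) (hAo.inter hBo)
      (off_sat _ l (fun x hx => not_not.2 (hl x hx)))]
    exact mul_le_mul_left (sat_ge hq l σ hσ) _
  have hK : ∀ h : ℕ, δ ≤ dens ν (K2 (-3 * ((h : ℤ) + 1)) (3 * (N + 1 : ℕ))) := by
    intro h
    refine hle.trans (le_trans (measure_mono ?_) (le_dens _ f hf))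
    rintro ω ⟨⟨hA, hB'⟩, hs⟩
    refine ⟨mem_iInter.1 hA h, ?_⟩
    obtain ⟨g, hg, hga, _, T, hT, hk⟩ := mem_iInter.1 hB' h
    have hg' : Good (sh (wj j) ω ∘ rf) g := hg
    have hT' : o (sh (wj j) ω ∘ rf) g T = f := hT
    have hgf : Good ω (tr (wj j) (rf ∘ f)) := by
      rw [good_tr]; exact good_rf _ (hT' ▸ good_o hg' T)
    have e := o_rf (sh (wj j) ω) hg' T
    rw [hT'] at e
    have hH : Hs f = 0 := by simp [Hs, h0]
    have key : ∀ k ≤ T, Hs (o ω f (N + k)) = Hs (o (sh (wj j) ω ∘ rf) g (T - k)) := by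
      intro k hk
      rw [o_add, hN ω hs hgf, o_tr, e k hk, Hs_tr, Hs_rf]; simp [wj]
    refine ⟨N + T, by rw [key T le_rfl]; simpa using hga, fun k hkT => ?_⟩
    rcases le_or_gt k N with h1 | h1
    · have := Hs_o_le (ω := ω) hv k
      push_cast; omega
    · obtain ⟨k', rfl⟩ := Nat.exists_eq_add_of_le h1.le
      rw [key k' (by omega)]
      have := rel_lt (by omega) hga hk (T - k') (by omega)
      have e2 : o (ω ∘ fun v => rf v + wj j) g (T - k') = o (sh (wj j) ω ∘ rf) g (T - k') := rfl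
      rw [e2] at this
      push_cast; omega
  have hit : ∀ n : ℕ, pii ν (n * (N + 1)) + n * δ ≤ pii ν 0 := by
    intro n
    induction n with
    | zero => simp
    | succ n ih =>
      refine le_trans ?_ ih
      rw [Nat.succ_mul, Nat.cast_succ, add_mul, one_mul, add_comm (n * δ), ← add_assoc]
      exact add_le_add ((add_le_add le_rfl (hK _)).trans (kill_ineq _ _)) le_rfl
  obtain ⟨n, hn⟩ := ENNReal.exists_nat_mul_gt hδ0 (pii_ne_top (ν := ν) 0)
  exact absurd (le_trans le_add_self (hit n)) (not_le.2 hn)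

lemma dens_tendsto (E : ℕ → Cf → St → Prop) (hm : ∀ n f, MeasurableSet {ω | E n ω f})
    (hanti : ∀ n ω f, E (n + 1) ω f → E n ω f) (hfin : dens ν (E 0) ≠ ∞)
    (hnull : ∀ f : St, (f 0).2 = 0 → PP V ν (⋂ n, {ω | E n ω f}) = 0) :
    Tendsto (fun n => dens ν (E n)) atTop (𝓝 0) := by
  have han : ∀ f : St, Antitone (fun n => {ω | E n ω f}) := fun f =>
    antitone_nat_of_succ_le (fun n ω h => hanti n ω f h)
  have := tendsto_lintegral_of_dominated_convergence (μ := (Measure.count : Measure Φ))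
    (F := fun n f => PP V ν {ω | E n ω f.1}) (f := fun _ => 0) (fun f => PP V ν {ω | E 0 ω f.1})
    (fun n => measurable_of_countable _)
    (fun n => Eventually.of_forall (fun f => measure_mono (han f.1 (Nat.zero_le n))))
    (by rw [lintegral_count]; exact hfin)
    (Eventually.of_forall (fun f => by
      have := tendsto_measure_iInter_atTop (μ := PP V ν) (fun n => (hm n f.1).nullMeasurableSet)
        (han f.1) ⟨0, measure_ne_top _ _⟩
      rwa [hnull f.1 f.2] at this))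
  simpa only [lintegral_count, lintegral_zero, tsum_zero, dens] using this

theorem pii_tendsto {q : ℝ≥0∞} (hq : ∀ c, q ≤ ν {c}) (hq0 : q ≠ 0) :
    Tendsto (pii ν) atTop (𝓝 0) :=
  dens_tendsto (fun h => End (-3 * ((h : ℤ) + 1)) 0) (fun _ f => meas_end _ _ f)
    (fun n ω f h => end_mono (by omega) (by push_cast; omega) h) (pii_ne_top 0)
    (fun f hf => Ainf_null hq hq0 f hf)

end Pool.Agent.MP_5f6c2d_pr

end MrgPart0

-- ======== part 1: formerly Pool.Agent.MP_5f6c2d_pr.Long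
section MrgPart1

/-! Long excursions above a level are unlikely, also given everything below the level. -/

set_option autoImplicit false
set_option linter.unusedSectionVars false

open MeasureTheory Set Filter Topology
open scoped ENNReal

namespace Pool.Agent.MP_5f6c2d_pr

variable {ν : Measure (Fin 3)} [IsProbabilityMeasure ν]

def Lg (h : ℤ) (M : ℕ) (ω : Cf) (e : St) : Prop :=
  Good ω e ∧ L e ≤ h ∧ ∀ k, 1 ≤ k → k ≤ M → h < L (o ω e k)

lemma meas_lg (h : ℤ) (M : ℕ) (e : St) : MeasurableSet {ω | Lg h M ω e} :=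
  measurableSet_setOfPred.2 ((meas_good e).and (measurable_const.and
    (Measurable.forall (fun k => measurable_const.imp (measurable_const.imp
      (meas_Q (fun x => h < L x) e k))))))

lemma meas_ex (Q Q' : St → Prop) (M : ℕ) (e g : St) : MeasurableSet {ω | Good ω e ∧ L e ≤ 0 ∧
    Q g ∧ ∃ t, 1 ≤ t ∧ t ≤ M ∧ o ω e t = g ∧
      ∀ k, k < t → (1 ≤ k → 0 < L (o ω e k)) ∧ Q' (o ω e k)} :=
  measurableSet_setOfPred.2 ((meas_good e).and (measurable_const.and (measurable_const.and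
    (Measurable.exists (fun t => measurable_const.and (measurable_const.and
      ((meas_Q (fun x => x = g) e t).and (Measurable.forall (fun k => measurable_const.imp
        (meas_Q (fun x => (1 ≤ k → 0 < L x) ∧ Q' x) e k))))))))))

lemma exc_inj {ω : Cf} {e e' : St} {t t' : ℕ} (he : Good ω e) (he' : Good ω e') (h0 : L e ≤ 0)
    (h0' : L e' ≤ 0) (ht : 1 ≤ t) (ht' : 1 ≤ t') (h : o ω e t = o ω e' t')
    (hk : ∀ k, k < t → 1 ≤ k → 0 < L (o ω e k))
    (hk' : ∀ k, k < t' → 1 ≤ k → 0 < L (o ω e' k)) : e = e' := by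
  rcases le_total t t' with hle | hle
  · have e1 := o_meet he he' hle h
    rcases Nat.eq_zero_or_pos (t' - t) with h1 | h1
    · rw [e1, h1]; rfl
    · have := hk' (t' - t) (by omega) h1
      rw [← e1] at this; omega
  · have e1 := o_meet he' he hle h.symm
    rcases Nat.eq_zero_or_pos (t - t') with h1 | h1
    · rw [e1, h1]; rfl
    · have := hk (t - t') (by omega) h1
      rw [← e1] at this; omega

lemma lg_high (M l : ℕ) :
    dens ν (fun ω e => Lg 0 M ω e ∧ ∃ k ≤ M, 3 * ((l : ℤ) + 2) ≤ Hs (o ω e k)) ≤ pii ν l := by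
  have hsh := dens_end_shift (ν := ν) (-3 * ((l : ℤ) + 1)) 0 ((l : ℤ) + 2)
  have := mt_le (ν := ν) (fun ω e g => Good ω e ∧ L e ≤ 0 ∧ Hs g = 3 * ((l : ℤ) + 2) ∧
      ∃ t, 1 ≤ t ∧ t ≤ M ∧ o ω e t = g ∧
        ∀ k, k < t → (1 ≤ k → 0 < L (o ω e k)) ∧ Hs (o ω e k) < 3 * ((l : ℤ) + 2))
    (fun ω e => Lg 0 M ω e ∧ ∃ k ≤ M, 3 * ((l : ℤ) + 2) ≤ Hs (o ω e k))
    (End (-3 * ((l : ℤ) + 1) + 3 * ((l : ℤ) + 2)) (0 + 3 * ((l : ℤ) + 2))) 1
    (fun e g => meas_ex (fun g => Hs g = 3 * ((l : ℤ) + 2)) (fun g => Hs g < 3 * ((l : ℤ) + 2)) M e g)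
    (fun ω w e g hw => by
      simp only [good_tr, L_tr, Hs_tr, o_tr, hw, mul_zero, add_zero]
      refine and_congr_right (fun _ => and_congr_right (fun _ => and_congr_right (fun _ =>
        exists_congr (fun t => and_congr_right (fun _ => and_congr_right (fun _ =>
          and_congr_left (fun _ => ⟨tr_inj w, fun h => by rw [h]⟩))))))))
    (fun ω e ⟨⟨he, h0, hk⟩, T, hTM, hT⟩ => by
      have hH : Hs e ≤ 3 := by
        have a := (L_near e he.1 0).2
        have b := (L_near e he.1 1).2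
        have c := (L_near e he.1 2).2
        unfold Hs; omega
      obtain ⟨t, htT, ht, hlt⟩ := first_hit (ω := ω) he.1 (by omega) hT
      have ht1 : 1 ≤ t := by
        rcases Nat.eq_zero_or_pos t with rfl | h1
        · simp only [o_zero] at ht; omega
        · exact h1
      refine ⟨{o ω e t}, by simp, fun g hg => ?_⟩
      rw [Finset.mem_singleton.1 hg]
      exact ⟨he, h0, ht, t, ht1, by omega, rfl,
        fun k hkt => ⟨fun h1 => hk k h1 (by omega), hlt k hkt⟩⟩)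
    (fun e => (meas_lg 0 M e).inter (measurableSet_setOfPred.2 (Measurable.exists (fun k =>
      measurable_const.and (meas_Q (fun x => 3 * ((l : ℤ) + 2) ≤ Hs x) e k)))))
    (fun ω e e' g ⟨he, h0, _, t, ht, _, hg, hk⟩ ⟨he', h0', _, t', ht', _, hg', hk'⟩ =>
      exc_inj he he' h0 h0' ht ht' (hg.trans hg'.symm) (fun k h => (hk k h).1)
        (fun k h => (hk' k h).1))
    (fun ω e g ⟨he, h0, hb, t, _, _, hg, hk⟩ => by
      have hH : Hs e ≤ 3 := by
        have a := (L_near e he.1 0).2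
        have b := (L_near e he.1 1).2
        have c := (L_near e he.1 2).2
        unfold Hs; omega
      rw [← hg] at hb ⊢
      exact end_of_path (by omega) he (by omega) (by omega)
        (fun k h => by have := (hk k h).2; omega))
  rw [hsh] at this
  simpa [pii] using this

lemma lg_low (M l : ℕ) :
    M * dens ν (fun ω e => Lg 0 M ω e ∧ ∀ k ≤ M, Hs (o ω e k) < 3 * ((l : ℤ) + 2)) ≤
      196 * (l + 4 : ℕ) := by
  classical
  refine le_trans (mt_le (ν := ν) (fun ω e g => Good ω e ∧ L e ≤ 0 ∧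
      (0 < L g ∧ Hs g < 3 * ((l : ℤ) + 2)) ∧ ∃ t, 1 ≤ t ∧ t ≤ M ∧ o ω e t = g ∧
        ∀ k, k < t → (1 ≤ k → 0 < L (o ω e k)) ∧ True)
    (fun ω e => Lg 0 M ω e ∧ ∀ k ≤ M, Hs (o ω e k) < 3 * ((l : ℤ) + 2))
    (fun _ g => Valid g ∧ 0 ≤ (g 0).1 ∧ (g 0).1 < 0 + (l + 4 : ℕ)) M
    (fun e g => meas_ex (fun g => 0 < L g ∧ Hs g < 3 * ((l : ℤ) + 2)) (fun _ => True) M e g)
    (fun ω w e g hw => by
      simp only [good_tr, L_tr, Hs_tr, o_tr, hw, mul_zero, add_zero]
      refine and_congr_right (fun _ => and_congr_right (fun _ => and_congr_right (fun _ =>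
        exists_congr (fun t => and_congr_right (fun _ => and_congr_right (fun _ =>
          and_congr_left (fun _ => ⟨tr_inj w, fun h => by rw [h]⟩))))))))
    (fun ω e ⟨⟨he, h0, hk⟩, hlow⟩ => ?_)
    (fun e => (meas_lg 0 M e).inter (measurableSet_setOfPred.2 (Measurable.forall (fun k =>
      measurable_const.imp (meas_Q (fun x => Hs x < 3 * ((l : ℤ) + 2)) e k)))))
    (fun ω e e' g ⟨he, h0, _, t, ht, _, hg, hk⟩ ⟨he', h0', _, t', ht', _, hg', hk'⟩ =>
      exc_inj he he' h0 h0' ht ht' (hg.trans hg'.symm) (fun k h => (hk k h).1)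
        (fun k h => (hk' k h).1))
    (fun ω e g ⟨he, _, hb, t, _, _, hg, _⟩ => ?_)) (dens_slab _ 0 (l + 4) (fun _ _ h => h))
  · refine ⟨(Finset.Icc 1 M).image (o ω e), ?_, fun g hg => ?_⟩
    · rw [Finset.card_image_of_injOn]
      · simp
      · have key : ∀ s t, 1 ≤ s → t ≤ M → s < t → o ω e s ≠ o ω e t := by
          intro s t hs ht hst h
          have e1 := o_meet he he hst.le h
          have := hk (t - s) (by omega) (by omega)
          rw [← e1] at this; omega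
        intro s hs t ht h
        simp only [Finset.coe_Icc, mem_Icc] at hs ht
        rcases lt_trichotomy s t with h1 | h1 | h1
        · exact absurd h (key s t hs.1 ht.2 h1)
        · exact h1
        · exact absurd h.symm (key t s ht.1 hs.2 h1)
    · obtain ⟨t, ht, rfl⟩ := Finset.mem_image.1 hg
      rw [Finset.mem_Icc] at ht
      exact ⟨he, h0, ⟨hk t ht.1 ht.2, hlow t ht.2⟩, t, ht.1, ht.2, rfl,
        fun k hkt => ⟨fun h1 => hk k h1 (by omega), trivial⟩⟩
  · have hv : Valid g := hg ▸ valid_o he.1 t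
    have h1 := (L_near g hv 0).1
    have h2 := lev_le_of_Hs g hv ((l : ℤ) + 2) hb.2.le 0
    have h3 := hb.1
    exact ⟨hv, by omega, by push_cast; omega⟩

lemma lg_small {q : ℝ≥0∞} (hq : ∀ c, q ≤ ν {c}) (hq0 : q ≠ 0) {ε : ℝ≥0∞} (hε : ε ≠ 0) :
    ∃ M : ℕ, dens ν (Lg 0 M) ≤ ε := by
  have hε2 : 0 < ε / 2 := ENNReal.half_pos hε
  obtain ⟨l, hl⟩ := ((tendsto_order.1 (pii_tendsto hq hq0)).2 _ hε2).exists
  obtain ⟨M, hM⟩ := ENNReal.exists_nat_mul_gt hε2.ne' (b := 196 * (l + 4 : ℕ))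
    (ENNReal.mul_ne_top (by simp) (by simp))
  refine ⟨M, ?_⟩
  have h2 : dens ν (fun ω e => Lg 0 M ω e ∧ ∀ k ≤ M, Hs (o ω e k) < 3 * ((l : ℤ) + 2)) ≤ ε / 2 := by
    by_contra hh
    exact absurd ((mul_le_mul_right (not_le.1 hh).le _).trans (lg_low M l)) (not_le.2 hM)
  rw [← ENNReal.add_halves ε]
  refine le_trans ?_ (add_le_add ((lg_high M l).trans hl.le) h2)
  unfold dens
  rw [← ENNReal.tsum_add]
  refine ENNReal.tsum_le_tsum (fun f => le_trans (measure_mono ?_) (measure_union_le _ _))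
  intro ω hω
  by_cases h : ∃ k ≤ M, 3 * ((l : ℤ) + 2) ≤ Hs (o ω f.1 k)
  · exact Or.inl ⟨hω, h⟩
  · exact Or.inr ⟨hω, fun k hk => not_le.1 (fun h' => h ⟨k, hk, h'⟩)⟩

lemma lg_le_dens (h : ℤ) (M : ℕ) (e : St) : PP V ν {ω | Lg h M ω e} ≤ dens ν (Lg 0 M) := by
  refine le_trans (le_of_eq ?_) (le_dens _ (tr (-(h, (e 0).2)) e) (by simp))
  rw [← PP_sh (h, (e 0).2) (meas_lg 0 M _)]
  congr 1
  ext ω
  conv_lhs => rw [← tr_zero e, ← neg_add_cancel (h, (e 0).2), ← tr_tr]
  simp only [Lg, mem_ofPred_eq, good_tr, L_tr, o_tr]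
  simp only [add_le_iff_nonpos_left, lt_add_iff_pos_left]

lemma lg_congr {h : ℤ} {M : ℕ} {ω ω' : Cf} {e : St} (h1 : ∀ v ∈ up h, ω' v = ω v)
    (h2 : ∀ c, ω' (e c) = ω (e c)) (h3 : ω' (ap e) = ω (ap e)) (hl : Lg h M ω e) :
    Lg h M ω' e := by
  obtain ⟨he, h0, hk⟩ := hl
  have hc := o_congr (ω := ω) (ω' := ω') (f := e) M (fun k hkM => by
    rcases Nat.eq_zero_or_pos k with rfl | hk0
    · exact h3
    · exact h1 _ (hk k hk0 hkM.le))
  exact ⟨⟨he.1, fun c => by rw [h2, he.2]⟩, h0, fun k a b => by rw [hc k b]; exact hk k a b⟩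

lemma lg_cond {q : ℝ≥0∞} (hq : ∀ c, q ≤ ν {c}) (h : ℤ) (M : ℕ) (η : Cf) (e : St) :
    q ^ 4 * PP V ν {ζ | Lg h M (sp (up h) η ζ) e} ≤ dens ν (Lg 0 M) := by
  classical
  refine le_trans ?_ (lg_le_dens h M e)
  set l : List (V × Fin 3) := (([e 0, e 1, e 2, ap e] : List V).filter
    (fun v => decide (v ∉ up h))).map (fun v => (v, η v)) with hl
  have hlen : l.length ≤ 4 := by
    rw [hl, List.length_map]; exact List.length_filter_le _ _
  have hσ : Sat η l := by
    intro x hx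
    obtain ⟨v, _, rfl⟩ := List.mem_map.1 hx
    rfl
  have hoff : Off (up h) {ω | Sat ω l} := off_sat _ l (by
    intro x hx
    obtain ⟨v, hv, rfl⟩ := List.mem_map.1 hx
    simpa using (List.mem_filter.1 hv).2)
  have hBm : MeasurableSet {ζ | Lg h M (sp (up h) η ζ) e} := meas_sp_right _ η (meas_lg h M e)
  have hon : Off (up h)ᶜ {ζ | Lg h M (sp (up h) η ζ) e} := by
    intro ζ ζ' hh hm
    have : sp (up h) η ζ' = sp (up h) η ζ := by
      funext v
      by_cases hv : v ∈ up h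
      · rw [sp_in _ _ hv, sp_in _ _ hv, hh v (not_not.2 hv)]
      · rw [sp_out _ _ hv, sp_out _ _ hv]
    simpa [this] using hm
  have hq1 : q ≤ 1 := (hq 0).trans prob_le_one
  calc q ^ 4 * PP V ν {ζ | Lg h M (sp (up h) η ζ) e}
      ≤ PP V ν {ω | Sat ω l} * PP V ν {ζ | Lg h M (sp (up h) η ζ) e} :=
        mul_le_mul_left ((pow_le_pow_right_of_le_one' hq1 hlen).trans (sat_ge hq l η hσ)) _
    _ = PP V ν ({ω | Sat ω l} ∩ {ζ | Lg h M (sp (up h) η ζ) e}) := by
        rw [indep_eq (up h) (meas_sat l) hBm hoff hon, mul_comm]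
    _ ≤ _ := by
      refine measure_mono ?_
      rintro ω ⟨hs, hm⟩
      have key : ∀ v ∈ ([e 0, e 1, e 2, ap e] : List V), ω v = sp (up h) η ω v := by
        intro v hv
        by_cases hu : v ∈ up h
        · rw [sp_in _ _ hu]
        · rw [sp_out _ _ hu]
          exact hs (v, η v) (List.mem_map.2 ⟨v, List.mem_filter.2 ⟨hv, by simpa using hu⟩, rfl⟩)
      refine lg_congr (fun v hv => (sp_in _ _ hv).symm) (fun c => key _ ?_) (key _ (by simp)) hm
      fin_cases c <;> simp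

theorem long_small {q : ℝ≥0∞} (hq : ∀ c, q ≤ ν {c}) (hq0 : q ≠ 0) {δ : ℝ≥0∞} (hδ : δ ≠ 0) :
    ∃ M : ℕ, ∀ h η e, PP V ν {ζ | Lg h M (sp (up h) η ζ) e} ≤ δ := by
  obtain ⟨M, hM⟩ := lg_small hq hq0 (mul_ne_zero (pow_ne_zero 4 hq0) hδ)
  have hq1 : q ≤ 1 := (hq 0).trans prob_le_one
  refine ⟨M, fun h η e => ?_⟩
  exact (ENNReal.mul_le_mul_iff_right (pow_ne_zero 4 hq0)
    (ENNReal.pow_ne_top (ne_top_of_le_ne_top ENNReal.one_ne_top hq1))).1
    ((lg_cond hq h M η e).trans hM)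

/-- Almost surely every orbit comes back to or below the level of its first apex. -/
theorem ae_return {q : ℝ≥0∞} (hq : ∀ c, q ≤ ν {c}) (hq0 : q ≠ 0) :
    ∀ᵐ ω ∂(PP V ν), ∀ e, Good ω e → ∃ k, 1 ≤ k ∧ L (o ω e k) ≤ L e := by
  rw [ae_all_iff]
  intro e
  rw [ae_iff]
  refine le_antisymm (ENNReal.le_of_forall_pos_le_add (fun ε hε _ => ?_)) zero_le
  obtain ⟨M, hM⟩ := lg_small hq hq0 (ε := (ε : ℝ≥0∞)) (by exact_mod_cast hε.ne')
  rw [zero_add]
  refine le_trans (measure_mono ?_) ((lg_le_dens (L e) M e).trans hM)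
  intro ω hω
  simp only [mem_ofPred_eq, Classical.not_imp, not_exists, not_and, not_le] at hω
  exact ⟨hω.1, le_rfl, fun k h1 _ => hω.2 k h1⟩

end Pool.Agent.MP_5f6c2d_pr

end MrgPart1

-- marker of a merged file
example : 731051 + 660788 = 731051 + 660788 := rfl
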