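import Mathlib.Algebra.Group.Prod
import Mathlib.Tactic.Abel
import Mathlib.Order.ConditionallyCompleteLattice.Basic
import Mathlib.Tactic.Ring.RingNF
import Mathlib.Tactic.FinCases
import Mathlib.Data.Fin.VecNotation
import Mathlib.Data.ZMod.Defs
import Mathlib.Algebra.CharP.Defs
import Mathlib.Algebra.Notation.Lemmas
import Mathlib.Data.Int.ConditionallyCompleteOrder

/-! Tricolor paths in lattice coordinates (the Kuhn triangulation of `ℤ³`). -/

set_option autoImplicit false

namespace Pool.Agent.MP_5f6c2d_pr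

abbrev V := ℤ × ℤ × ℤ
abbrev St := Fin 3 → V
abbrev Cf := V → Fin 3

def nb : List V :=
  [(1,0,0),(0,1,0),(0,0,1),(1,1,0),(1,0,1),(0,1,1),(1,1,1),
   (-1,0,0),(0,-1,0),(0,0,-1),(-1,-1,0),(-1,0,-1),(0,-1,-1),(-1,-1,-1)]

def det3 (u v w : V) : ℤ :=
  u.1 * (v.2.1 * w.2.2 - v.2.2 * w.2.1) - u.2.1 * (v.1 * w.2.2 - v.2.2 * w.1)
    + u.2.2 * (v.1 * w.2.1 - v.2.1 * w.1)

def apx (u v : V) : V :=
  (nb.find? (fun d => decide (d - u ∈ nb) && decide (d - v ∈ nb) && decide (0 < det3 u v d))).getD 0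

def Valid (f : St) : Prop := f 1 - f 0 ∈ nb ∧ f 2 - f 0 ∈ nb ∧ f 2 - f 1 ∈ nb

instance (f : St) : Decidable (Valid f) := by unfold Valid; infer_instance

def ap (f : St) : V := f 0 + apx (f 1 - f 0) (f 2 - f 0)
def am (f : St) : V := f 0 + apx (f 2 - f 0) (f 1 - f 0)

def tr (w : V) (f : St) : St := fun c => f c + w

def mk0 (u v : V) : St := ![0, u, v]

@[simp] lemma tr_apply (w : V) (f : St) (c : Fin 3) : tr w f c = f c + w := rfl

lemma ap_tr (w : V) (f : St) : ap (tr w f) = ap f + w := by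
  simp only [ap, tr_apply, add_sub_add_right_eq_sub]; abel

lemma am_tr (w : V) (f : St) : am (tr w f) = am f + w := by
  simp only [am, tr_apply, add_sub_add_right_eq_sub]; abel

lemma valid_tr (w : V) (f : St) : Valid (tr w f) ↔ Valid f := by
  simp only [Valid, tr_apply, add_sub_add_right_eq_sub]

lemma tr_tr (w w' : V) (f : St) : tr w (tr w' f) = tr (w' + w) f := by
  funext c; simp [add_assoc]

@[simp] lemma tr_zero (f : St) : tr 0 f = f := by funext c; simp

lemma update_tr (w : V) (f : St) (c : Fin 3) (d : V) :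
    Function.update (tr w f) c (d + w) = tr w (Function.update f c d) := by
  funext i
  by_cases h : i = c
  · subst h; simp
  · simp [Function.update_of_ne h]

lemma tr_inj (w : V) {f g : St} (h : tr w f = tr w g) : f = g := by
  funext c
  have := congrFun h c
  simpa using this

/-- Local facts are checked on the finitely many states based at the origin. -/
lemma local_ind (P : St → Prop) (hP : ∀ w f, P f → P (tr w f))
    (h0 : ∀ u ∈ nb, ∀ v ∈ nb, v - u ∈ nb → P (mk0 u v)) : ∀ f, Valid f → P f := by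
  intro f hf
  have e : f = tr (f 0) (mk0 (f 1 - f 0) (f 2 - f 0)) := by
    funext c; fin_cases c <;> simp [mk0]
  rw [e]
  refine hP _ _ (h0 _ hf.1 _ hf.2.1 ?_)
  have := hf.2.2
  rwa [sub_sub_sub_cancel_right]

lemma up_step (f : St) (hf : Valid f) (c : Fin 3) :
    Valid (Function.update f c (ap f)) ∧ am (Function.update f c (ap f)) = f c := by
  revert c
  refine local_ind (fun f => ∀ c, Valid (Function.update f c (ap f)) ∧
    am (Function.update f c (ap f)) = f c) ?_ (by decide +kernel) f hf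
  intro w f h c
  rw [ap_tr, update_tr, valid_tr, am_tr, (h c).2]
  exact ⟨(h c).1, rfl⟩

lemma dn_step (f : St) (hf : Valid f) (c : Fin 3) :
    Valid (Function.update f c (am f)) ∧ ap (Function.update f c (am f)) = f c := by
  revert c
  refine local_ind (fun f => ∀ c, Valid (Function.update f c (am f)) ∧
    ap (Function.update f c (am f)) = f c) ?_ (by decide +kernel) f hf
  intro w f h c
  rw [am_tr, update_tr, valid_tr, ap_tr, (h c).2]
  exact ⟨(h c).1, rfl⟩

lemma ap_sub_mem (f : St) (hf : Valid f) (c : Fin 3) : ap f - f c ∈ nb ∧ am f - f c ∈ nb := by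
  revert c
  refine local_ind (fun f => ∀ c, ap f - f c ∈ nb ∧ am f - f c ∈ nb) ?_ (by decide +kernel) f hf
  intro w f h c
  rw [ap_tr, am_tr, tr_apply, add_sub_add_right_eq_sub, add_sub_add_right_eq_sub]
  exact h c

lemma sub_mem (f : St) (hf : Valid f) (c c' : Fin 3) (h : c ≠ c') : f c - f c' ∈ nb := by
  revert c c'
  refine local_ind (fun f => ∀ c c', c ≠ c' → f c - f c' ∈ nb) ?_ (by decide +kernel) f hf
  intro w f h c c' hc
  rw [tr_apply, tr_apply, add_sub_add_right_eq_sub]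
  exact h c c' hc

lemma ap_ne_am (f : St) (hf : Valid f) : ap f ≠ am f := by
  refine local_ind (fun f => ap f ≠ am f) ?_ (by decide +kernel) f hf
  intro w f h
  rw [ap_tr, am_tr]
  simpa using h

lemma common_nb (f : St) (hf : Valid f) (x : V) (hx : ∀ c, x - f c ∈ nb) : x = ap f ∨ x = am f := by
  have key : ∀ d ∈ nb, d + f 0 - f 1 ∈ nb → d + f 0 - f 2 ∈ nb →
      (d + f 0 = ap f ∨ d + f 0 = am f) := by
    refine local_ind (fun f => ∀ d ∈ nb, d + f 0 - f 1 ∈ nb → d + f 0 - f 2 ∈ nb →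
      (d + f 0 = ap f ∨ d + f 0 = am f)) ?_ (by decide +kernel) f hf
    intro w f h d hd h1 h2
    simp only [tr_apply, ← add_assoc, add_sub_add_right_eq_sub] at h1 h2
    rw [ap_tr, am_tr, tr_apply, ← add_assoc]
    rcases h d hd h1 h2 with e | e
    · left; rw [e]
    · right; rw [e]
  have := key (x - f 0) (hx 0) (by simpa using hx 1) (by simpa using hx 2)
  simpa using this

lemma nb_bound : ∀ d ∈ nb, d ≠ 0 ∧ -1 ≤ d.1 ∧ d.1 ≤ 1 ∧ -1 ≤ d.2.1 ∧ d.2.1 ≤ 1 ∧
    -1 ≤ d.2.2 ∧ d.2.2 ≤ 1 := by decide +kernel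

lemma ap_ne (f : St) (hf : Valid f) (c : Fin 3) : ap f ≠ f c := fun h =>
  (nb_bound _ (ap_sub_mem f hf c).1).1 (by rw [h, sub_self])

lemma am_ne (f : St) (hf : Valid f) (c : Fin 3) : am f ≠ f c := fun h =>
  (nb_bound _ (ap_sub_mem f hf c).2).1 (by rw [h, sub_self])

lemma valid_inj (f : St) (hf : Valid f) : Function.Injective f := by
  intro c c' h
  by_contra hc
  exact (nb_bound _ (sub_mem f hf c c' hc)).1 (by rw [h, sub_self])

/-- Level of the apex. -/
def L (f : St) : ℤ := (ap f).1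
/-- Sum of the levels of the three cells. -/
def Hs (f : St) : ℤ := (f 0).1 + (f 1).1 + (f 2).1

lemma L_tr (w : V) (f : St) : L (tr w f) = L f + w.1 := by simp [L, ap_tr]
lemma Hs_tr (w : V) (f : St) : Hs (tr w f) = Hs f + 3 * w.1 := by simp [Hs]; ring

lemma L_near (f : St) (hf : Valid f) (c : Fin 3) : L f ≤ (f c).1 + 1 ∧ (f c).1 ≤ L f + 1 := by
  have := nb_bound _ (ap_sub_mem f hf c).1
  simp only [Prod.fst_sub] at this
  unfold L; omega

lemma lev_near (f : St) (hf : Valid f) (c c' : Fin 3) : (f c).1 ≤ (f c').1 + 1 := by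
  by_cases h : c = c'
  · subst h; omega
  have := nb_bound _ (sub_mem f hf c c' h)
  simp only [Prod.fst_sub] at this
  omega

lemma lev_le_of_Hs (f : St) (hf : Valid f) (m : ℤ) (h : Hs f ≤ 3 * m) (c : Fin 3) :
    (f c).1 ≤ m := by
  have a := lev_near f hf c 0
  have b := lev_near f hf c 1
  have d := lev_near f hf c 2
  unfold Hs at h
  fin_cases c <;> simp only [Fin.zero_eta, Fin.mk_one, Fin.reduceFinMk] at * <;> omega

lemma le_lev_of_Hs (f : St) (hf : Valid f) (m : ℤ) (h : 3 * m ≤ Hs f) (c : Fin 3) :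
    m ≤ (f c).1 := by
  have a := lev_near f hf 0 c
  have b := lev_near f hf 1 c
  have d := lev_near f hf 2 c
  unfold Hs at h
  fin_cases c <;> simp only [Fin.zero_eta, Fin.mk_one, Fin.reduceFinMk] at * <;> omega

lemma Hs_update (f : St) (c : Fin 3) (d : V) :
    Hs (Function.update f c d) = Hs f + d.1 - (f c).1 := by
  fin_cases c <;> simp [Hs] <;> ring

lemma wall (f : St) (hf : Valid f) (h1 : (f 1).1 = (f 0).1) (h2 : (f 2).1 = (f 0).1) :
    (ap f).1 + (am f).1 = 2 * (f 0).1 ∧ (ap f).1 ≠ (f 0).1 := by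
  revert h1 h2
  refine local_ind (fun f => (f 1).1 = (f 0).1 → (f 2).1 = (f 0).1 →
    (ap f).1 + (am f).1 = 2 * (f 0).1 ∧ (ap f).1 ≠ (f 0).1) ?_ (by decide +kernel) f hf
  intro w f h h1 h2
  simp only [tr_apply, Prod.fst_add, ap_tr, am_tr] at *
  have := h (by omega) (by omega)
  omega

/-- The reflection exchanging the two horizontal coordinates. -/
def rf (v : V) : V := (v.1, v.2.2, v.2.1)

@[simp] lemma rf_rf (v : V) : rf (rf v) = v := rfl
lemma rf_add (v w : V) : rf (v + w) = rf v + rf w := rfl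
@[simp] lemma rf_fst (v : V) : (rf v).1 = v.1 := rfl

lemma rf_tr (w : V) (f : St) : rf ∘ tr w f = tr (rf w) (rf ∘ f) := rfl

lemma rf_facts (f : St) (hf : Valid f) :
    Valid (rf ∘ f) ∧ ap (rf ∘ f) = rf (am f) ∧ am (rf ∘ f) = rf (ap f) := by
  refine local_ind (fun f => Valid (rf ∘ f) ∧ ap (rf ∘ f) = rf (am f) ∧ am (rf ∘ f) = rf (ap f))
    ?_ (by decide +kernel) f hf
  intro w f h
  rw [rf_tr, valid_tr, ap_tr, am_tr, ap_tr, am_tr, rf_add, rf_add, h.2.1, h.2.2]
  exact ⟨h.1, rfl, rfl⟩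

/-! ### The dynamics -/

def nxt (ω : Cf) (f : St) : St := Function.update f (ω (ap f)) (ap f)
def prv (ω : Cf) (f : St) : St := Function.update f (ω (am f)) (am f)
def Good (ω : Cf) (f : St) : Prop := Valid f ∧ ∀ c, ω (f c) = c
def o (ω : Cf) (f : St) (k : ℕ) : St := (nxt ω)^[k] f

@[simp] lemma o_zero (ω : Cf) (f : St) : o ω f 0 = f := rfl
lemma o_succ (ω : Cf) (f : St) (k : ℕ) : o ω f (k + 1) = nxt ω (o ω f k) :=
  Function.iterate_succ_apply' _ _ _
lemma o_succ' (ω : Cf) (f : St) (k : ℕ) : o ω f (k + 1) = o ω (nxt ω f) k :=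
  Function.iterate_succ_apply _ _ _
lemma o_add (ω : Cf) (f : St) (j k : ℕ) : o ω f (j + k) = o ω (o ω f j) k := by
  unfold o; rw [add_comm, Function.iterate_add_apply]

lemma valid_nxt {ω : Cf} {f : St} (hf : Valid f) : Valid (nxt ω f) := (up_step f hf _).1
lemma valid_prv {ω : Cf} {f : St} (hf : Valid f) : Valid (prv ω f) := (dn_step f hf _).1

lemma valid_o {ω : Cf} {f : St} (hf : Valid f) (k : ℕ) : Valid (o ω f k) := by
  induction k with
  | zero => exact hf
  | succ k ih => rw [o_succ]; exact valid_nxt ih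

lemma good_update {ω : Cf} {f : St} (hf : ∀ c, ω (f c) = c) (d : V) (c : Fin 3) :
    ω (Function.update f (ω d) d c) = c := by
  by_cases h : c = ω d
  · subst h; simp
  · rw [Function.update_of_ne h]; exact hf c

lemma good_nxt {ω : Cf} {f : St} (hf : Good ω f) : Good ω (nxt ω f) :=
  ⟨valid_nxt hf.1, good_update hf.2 _⟩
lemma good_prv {ω : Cf} {f : St} (hf : Good ω f) : Good ω (prv ω f) :=
  ⟨valid_prv hf.1, good_update hf.2 _⟩

lemma good_o {ω : Cf} {f : St} (hf : Good ω f) (k : ℕ) : Good ω (o ω f k) := by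
  induction k with
  | zero => exact hf
  | succ k ih => rw [o_succ]; exact good_nxt ih

lemma am_nxt {ω : Cf} {f : St} (hf : Valid f) : am (nxt ω f) = f (ω (ap f)) := (up_step f hf _).2
lemma ap_prv {ω : Cf} {f : St} (hf : Valid f) : ap (prv ω f) = f (ω (am f)) := (dn_step f hf _).2

lemma prv_nxt {ω : Cf} {f : St} (hf : Good ω f) : prv ω (nxt ω f) = f := by
  unfold prv
  rw [am_nxt hf.1, hf.2]
  unfold nxt
  simp

lemma nxt_prv {ω : Cf} {f : St} (hf : Good ω f) : nxt ω (prv ω f) = f := by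
  unfold nxt
  rw [ap_prv hf.1, hf.2]
  unfold prv
  simp

lemma nxt_inj {ω : Cf} {f g : St} (hf : Good ω f) (hg : Good ω g) (h : nxt ω f = nxt ω g) :
    f = g := by
  rw [← prv_nxt hf, h, prv_nxt hg]

lemma o_inj {ω : Cf} {f g : St} (hf : Good ω f) (hg : Good ω g) (k : ℕ)
    (h : o ω f k = o ω g k) : f = g := by
  induction k with
  | zero => exact h
  | succ k ih =>
    rw [o_succ, o_succ] at h
    exact ih (nxt_inj (good_o hf k) (good_o hg k) h)

/-- If two orbits meet, one start lies on the other orbit. -/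
lemma o_meet {ω : Cf} {f g : St} (hf : Good ω f) (hg : Good ω g) {s t : ℕ} (hst : s ≤ t)
    (h : o ω f s = o ω g t) : f = o ω g (t - s) := by
  refine o_inj hf (good_o hg _) s ?_
  rw [← o_add, Nat.sub_add_cancel hst, h]

lemma nxt_ap (ω : Cf) (f : St) : nxt ω f (ω (ap f)) = ap f := by simp [nxt]

lemma nxt_cases (ω : Cf) (f : St) (c : Fin 3) : nxt ω f c = ap f ∨ nxt ω f c = f c := by
  unfold nxt
  by_cases h : c = ω (ap f)
  · left; rw [h]; simp
  · right; rw [Function.update_of_ne h]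

lemma L_nxt {ω : Cf} {f : St} (hf : Valid f) :
    L (nxt ω f) ≤ L f + 1 ∧ L f ≤ L (nxt ω f) + 1 := by
  have := L_near _ (valid_nxt (ω := ω) hf) (ω (ap f))
  rw [nxt_ap] at this
  exact this

lemma Hs_nxt {ω : Cf} {f : St} (hf : Valid f) :
    Hs (nxt ω f) ≤ Hs f + 1 ∧ Hs f ≤ Hs (nxt ω f) + 1 := by
  have := L_near f hf (ω (ap f))
  unfold nxt
  rw [Hs_update]
  unfold L at this
  omega

lemma L_o_le {ω : Cf} {f : St} (hf : Valid f) (k : ℕ) : L (o ω f k) ≤ L f + k := by
  induction k with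
  | zero => simp
  | succ k ih =>
    rw [o_succ]
    have := (L_nxt (ω := ω) (valid_o (ω := ω) hf k)).1
    push_cast; omega

lemma Hs_o_le {ω : Cf} {f : St} (hf : Valid f) (k : ℕ) : Hs (o ω f k) ≤ Hs f + k := by
  induction k with
  | zero => simp
  | succ k ih =>
    rw [o_succ]
    have := (Hs_nxt (ω := ω) (valid_o (ω := ω) hf k)).1
    push_cast; omega

/-- The orbit only looks at the colours of its apexes. -/
lemma o_congr {ω ω' : Cf} {f : St} (t : ℕ)
    (h : ∀ k < t, ω' (ap (o ω f k)) = ω (ap (o ω f k))) : ∀ k ≤ t, o ω' f k = o ω f k := by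
  intro k hk
  induction k with
  | zero => rfl
  | succ k ih =>
    rw [o_succ, o_succ, ih (by omega)]
    unfold nxt
    rw [h k (by omega)]

/-! ### Symmetries -/

def sh (w : V) (ω : Cf) : Cf := fun v => ω (v + w)

lemma nxt_tr (ω : Cf) (w : V) (f : St) : nxt ω (tr w f) = tr w (nxt (sh w ω) f) := by
  unfold nxt
  rw [ap_tr, update_tr]; rfl

lemma o_tr (ω : Cf) (w : V) (f : St) (k : ℕ) : o ω (tr w f) k = tr w (o (sh w ω) f k) := by
  induction k with
  | zero => rfl
  | succ k ih => rw [o_succ, o_succ, ih, nxt_tr]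

lemma good_tr (ω : Cf) (w : V) (f : St) : Good ω (tr w f) ↔ Good (sh w ω) f := by
  unfold Good; rw [valid_tr]; rfl

lemma comp_update (φ : V → V) (f : St) (c : Fin 3) (d : V) :
    φ ∘ Function.update f c d = Function.update (φ ∘ f) c (φ d) := by
  funext i
  by_cases h : i = c
  · subst h; simp
  · simp [Function.update_of_ne h]

lemma nxt_rf (ω : Cf) {f : St} (hf : Valid f) : nxt ω (rf ∘ f) = rf ∘ prv (ω ∘ rf) f := by
  unfold nxt prv
  rw [(rf_facts f hf).2.1, comp_update]; rfl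

lemma good_rf (ω : Cf) {f : St} (hf : Good (ω ∘ rf) f) : Good ω (rf ∘ f) :=
  ⟨(rf_facts f hf.1).1, hf.2⟩

lemma Hs_rf (f : St) : Hs (rf ∘ f) = Hs f := rfl

/-- Running a reflected orbit backwards. -/
lemma o_rf (ω : Cf) {g : St} (hg : Good (ω ∘ rf) g) (t : ℕ) :
    ∀ k ≤ t, o ω (rf ∘ o (ω ∘ rf) g t) k = rf ∘ o (ω ∘ rf) g (t - k) := by
  intro k hk
  induction k with
  | zero => rfl
  | succ k ih =>
    rw [o_succ, ih (by omega), nxt_rf _ (valid_o hg.1 _)]
    have e : t - k = (t - (k + 1)) + 1 := by omega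
    rw [e, o_succ, prv_nxt (good_o hg _)]

/-! ### Words -/

def fin (f : St) : List (Fin 3) → St
  | [] => f
  | c :: w => fin (Function.update f c (ap f)) w

def prs (f : St) : List (Fin 3) → List (V × Fin 3)
  | [] => []
  | c :: w => (ap f, c) :: prs (Function.update f c (ap f)) w

def Sat (ω : Cf) (l : List (V × Fin 3)) : Prop := ∀ x ∈ l, ω x.1 = x.2

lemma o_word (ω : Cf) (w : List (Fin 3)) : ∀ f : St, Sat ω (prs f w) → o ω f w.length = fin f w := by
  induction w with
  | nil => intro f _; rfl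
  | cons c w ih =>
    intro f h
    have h1 : ω (ap f) = c := h (ap f, c) (by simp [prs])
    rw [List.length_cons, o_succ']
    have e : nxt ω f = Function.update f c (ap f) := by unfold nxt; rw [h1]
    rw [e, ih _ (fun x hx => h x (by simp [prs, hx]))]
    rfl

lemma fin_tr (v : V) (w : List (Fin 3)) : ∀ f : St, fin (tr v f) w = tr v (fin f w) := by
  induction w with
  | nil => intro f; rfl
  | cons c w ih => intro f; simp only [fin]; rw [ap_tr, update_tr, ih]

lemma prs_tr (v : V) (w : List (Fin 3)) :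
    ∀ f : St, prs (tr v f) w = (prs f w).map (fun x => (x.1 + v, x.2)) := by
  induction w with
  | nil => intro f; rfl
  | cons c w ih => intro f; simp only [prs, List.map_cons]; rw [ap_tr, update_tr, ih]

lemma prs_length (w : List (Fin 3)) : ∀ f : St, (prs f w).length = w.length := by
  induction w with
  | nil => intro f; rfl
  | cons c w ih => intro f; simp [prs, ih]

end Pool.Agent.MP_5f6c2d_pr
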