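import Mathlib.Algebra.Ring.Int.Defs
import Mathlib.Algebra.Ring.Parity
import Mathlib.Data.Finset.Card
import Mathlib.Data.Fintype.Basic

/-! The body centred cubic model, in the words of the frozen statement. -/

set_option autoImplicit false

namespace Pool.Agent.MP_5f6c2d_pr

/-- Adjacency of two cells of the body centred cubic lattice. -/
def Adj (v w : Fin 3 → ℤ) : Prop :=
  ((∀ i, Even (v i)) ∨ (∀ i, Odd (v i))) ∧ ((∀ i, Even (w i)) ∨ (∀ i, Odd (w i))) ∧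
    ((∃ i, (v i - w i = 2 ∨ w i - v i = 2) ∧ ∀ j, j ≠ i → v j = w j) ∨
      (∀ i, v i - w i = 1 ∨ w i - v i = 1))

/-- The vertices `Q` and `R` (quadruples of mutually adjacent cells) are the two ends of a
tricolor edge of the colouring `ω`. -/
def Step (ω : (Fin 3 → ℤ) → Fin 3) (Q R : Finset (Fin 3 → ℤ)) : Prop :=
  Q.card = 4 ∧ R.card = 4 ∧ Q ≠ R ∧
    (∀ v ∈ Q, ∀ w ∈ Q, v ≠ w → Adj v w) ∧ (∀ v ∈ R, ∀ w ∈ R, v ≠ w → Adj v w) ∧
    (Q ∩ R).card = 3 ∧ ∀ c : Fin 3, ∃ v ∈ Q ∩ R, ω v = c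

end Pool.Agent.MP_5f6c2d_pr
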