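import Mathlib.Tactic.Linarith.Frontend
import Mathlib.Tactic.NormNum.Ineq
import Mathlib.Data.Fintype.Perm
import Mathlib.Data.Int.Star
import Mathlib.Algebra.Order.Ring.Star
import Pool.Agent.MP_5f6c2d_pr.Model
import Pool.Agent.MP_5f6c2d_pr.Kuhn

/-! From the body centred cubic model to lattice coordinates. -/

set_option autoImplicit false

namespace Pool.Agent.MP_5f6c2d_pr

abbrev W := Fin 3 → ℤ

lemma adj_symm {v w : W} (h : Adj v w) : Adj w v := by
  obtain ⟨h1, h2, h3⟩ := h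
  refine ⟨h2, h1, ?_⟩
  rcases h3 with ⟨i, hi, hj⟩ | h3
  · exact Or.inl ⟨i, hi.symm, fun j h => (hj j h).symm⟩
  · exact Or.inr (fun i => (h3 i).symm)

/-- Lattice coordinates whose first one is half of `ρ`. -/
structure Frame (ρ : W → ℤ) where
  ι : V → W
  κ : W → V
  inj : Function.Injective ι
  ικ : ∀ v w, Adj v w → ι (κ v) = v
  nbr : ∀ v w, Adj v w → κ w - κ v ∈ nb
  lev : ∀ x, ρ (ι x) = 2 * x.1

def i0 (x : V) : W := ![x.1 + x.2.1 - x.2.2, x.1 - x.2.1 + x.2.2, x.1 - x.2.1 - x.2.2]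
def k0 (v : W) : V := ((v 0 + v 1) / 2, (v 0 - v 2) / 2, (v 1 - v 2) / 2)

lemma i0_inj : Function.Injective i0 := by
  rintro ⟨a, b, c⟩ ⟨a', b', c'⟩ h
  have h0 := congrFun h 0
  have h1 := congrFun h 1
  have h2 := congrFun h 2
  simp only [i0, Matrix.cons_val] at h0 h1 h2
  simp only [Prod.mk.injEq]
  omega

lemma par_iff (v : W) (h : (∀ i, Even (v i)) ∨ (∀ i, Odd (v i))) :
    v 0 % 2 = v 1 % 2 ∧ v 1 % 2 = v 2 % 2 := by
  rcases h with h | h
  · have h0 := Int.even_iff.1 (h 0)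
    have h1 := Int.even_iff.1 (h 1)
    have h2 := Int.even_iff.1 (h 2)
    omega
  · have h0 := Int.odd_iff.1 (h 0)
    have h1 := Int.odd_iff.1 (h 1)
    have h2 := Int.odd_iff.1 (h 2)
    omega

lemma i0_k0 {v : W} (h : (∀ i, Even (v i)) ∨ (∀ i, Odd (v i))) : i0 (k0 v) = v := by
  have := par_iff v h
  funext i
  fin_cases i <;> simp [i0, k0] <;> omega

lemma i0_sub (x y : V) : i0 (x - y) = i0 x - i0 y := by
  funext i
  fin_cases i <;> simp [i0] <;> ring

lemma nb_of_i0 : ∀ a ∈ [(-1 : ℤ), 0, 1], ∀ b ∈ [(-1 : ℤ), 0, 1], ∀ c ∈ [(-1 : ℤ), 0, 1],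
    (a + b - c) ^ 2 + (a - b + c) ^ 2 + (a - b - c) ^ 2 ∈ [(3 : ℤ), 4] → (a, b, c) ∈ nb := by
  decide +kernel

lemma k0_nbr {v w : W} (h : Adj v w) : k0 w - k0 v ∈ nb := by
  have e := i0_sub (k0 w) (k0 v)
  rw [i0_k0 h.1, i0_k0 h.2.1] at e
  generalize k0 w - k0 v = d at e ⊢
  obtain ⟨a, b, c⟩ := d
  have h0 := congrFun e 0
  have h1 := congrFun e 1
  have h2 := congrFun e 2
  simp only [i0, Matrix.cons_val, Pi.sub_apply] at h0 h1 h2
  have key : (-1 ≤ a ∧ a ≤ 1 ∧ -1 ≤ b ∧ b ≤ 1 ∧ -1 ≤ c ∧ c ≤ 1) ∧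
      ((w 0 - v 0) ^ 2 + (w 1 - v 1) ^ 2 + (w 2 - v 2) ^ 2 = 3 ∨
        (w 0 - v 0) ^ 2 + (w 1 - v 1) ^ 2 + (w 2 - v 2) ^ 2 = 4) := by
    rcases h.2.2 with ⟨i, hi, hj⟩ | h3
    · fin_cases i
      · have a1 := hj 1 (by decide)
        have a2 := hj 2 (by decide)
        simp only [Fin.zero_eta] at hi
        refine ⟨by omega, Or.inr ?_⟩
        rcases hi with hi | hi <;> nlinarith
      · have a1 := hj 0 (by decide)
        have a2 := hj 2 (by decide)
        simp only [Fin.mk_one] at hi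
        refine ⟨by omega, Or.inr ?_⟩
        rcases hi with hi | hi <;> nlinarith
      · have a1 := hj 0 (by decide)
        have a2 := hj 1 (by decide)
        simp only [Fin.reduceFinMk] at hi
        refine ⟨by omega, Or.inr ?_⟩
        rcases hi with hi | hi <;> nlinarith
    · have a0 := h3 0
      have a1 := h3 1
      have a2 := h3 2
      refine ⟨by omega, Or.inl ?_⟩
      have b0 : (w 0 - v 0) ^ 2 = 1 := by rcases a0 with a | a <;> nlinarith
      have b1 : (w 1 - v 1) ^ 2 = 1 := by rcases a1 with a | a <;> nlinarith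
      have b2 : (w 2 - v 2) ^ 2 = 1 := by rcases a2 with a | a <;> nlinarith
      omega
  refine nb_of_i0 a ?_ b ?_ c ?_ ?_
  · simp only [List.mem_cons, List.not_mem_nil, or_false]; omega
  · simp only [List.mem_cons, List.not_mem_nil, or_false]; omega
  · simp only [List.mem_cons, List.not_mem_nil, or_false]; omega
  · rw [h0, h1, h2]
    simpa using key.2

/-- Signed permutations of the coordinates. -/
def sg (σ : Equiv.Perm (Fin 3)) (s : Fin 3 → ℤ) (v : W) : W := fun l => s l * v (σ l)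

lemma adj_sg (σ : Equiv.Perm (Fin 3)) (s : Fin 3 → ℤ) (hs : ∀ l, s l = 1 ∨ s l = -1) {v w : W}
    (h : Adj v w) : Adj (sg σ s v) (sg σ s w) := by
  have par : ∀ v : W, ((∀ i, Even (v i)) ∨ (∀ i, Odd (v i))) →
      ((∀ i, Even (sg σ s v i)) ∨ (∀ i, Odd (sg σ s v i))) := by
    intro v hv
    rcases hv with hv | hv
    · left; intro i; unfold sg; rcases hs i with h | h <;> simpa [h] using hv (σ i)
    · right; intro i; unfold sg; rcases hs i with h | h <;> simpa [h] using hv (σ i)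
  refine ⟨par v h.1, par w h.2.1, ?_⟩
  rcases h.2.2 with ⟨i, hi, hj⟩ | h3
  · refine Or.inl ⟨σ.symm i, ?_, fun j hji => ?_⟩
    · unfold sg
      rw [Equiv.apply_symm_apply]
      rcases hs (σ.symm i) with h | h <;> rw [h] <;> omega
    · unfold sg
      rw [hj (σ j) (fun h => hji (by rw [← h]; simp))]
  · refine Or.inr (fun i => ?_)
    have := h3 (σ i)
    unfold sg
    rcases hs i with h | h <;> rw [h] <;> omega

lemma sg_sg (σ : Equiv.Perm (Fin 3)) (s : Fin 3 → ℤ) (hs : ∀ l, s l = 1 ∨ s l = -1) (v : W) :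
    sg σ s (sg σ.symm (s ∘ σ.symm) v) = v ∧ sg σ.symm (s ∘ σ.symm) (sg σ s v) = v := by
  constructor
  · funext l
    simp only [sg, Function.comp, Equiv.symm_apply_apply]
    rcases hs l with h | h <;> rw [h] <;> ring
  · funext l
    simp only [sg, Function.comp, Equiv.apply_symm_apply]
    rcases hs (σ.symm l) with h | h <;> rw [h] <;> ring

lemma exists_perm : ∀ i j : Fin 3, i ≠ j → ∃ σ : Equiv.Perm (Fin 3), σ 0 = i ∧ σ 1 = j := by
  decide +kernel

lemma exists_frame {i j : Fin 3} (hij : i ≠ j) {a b : ℤ} (ha : a = 1 ∨ a = -1)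
    (hb : b = 1 ∨ b = -1) : Nonempty (Frame (fun v => a * v i + b * v j)) := by
  obtain ⟨σ, rfl, rfl⟩ := exists_perm i j hij
  have hs : ∀ l, (![a, b, 1] : Fin 3 → ℤ) l = 1 ∨ (![a, b, 1] : Fin 3 → ℤ) l = -1 := by
    intro l; fin_cases l <;> simp [ha, hb]
  refine ⟨⟨fun x => sg σ.symm (![a, b, 1] ∘ σ.symm) (i0 x), fun v => k0 (sg σ ![a, b, 1] v),
    ?_, ?_, ?_, ?_⟩⟩
  · intro x y h
    apply i0_inj
    have := congrArg (sg σ ![a, b, 1]) h
    simp only at this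
    rwa [(sg_sg σ _ hs _).1, (sg_sg σ _ hs _).1] at this
  · intro v w h
    rw [i0_k0 (adj_sg σ _ hs h).1, (sg_sg σ _ hs _).2]
  · intro v w h
    exact k0_nbr (adj_sg σ _ hs h)
  · intro x
    have := (sg_sg σ _ hs (i0 x)).1
    have h0 := congrFun this 0
    have h1 := congrFun this 1
    simp only [i0, Matrix.cons_val] at h0 h1
    change a * _ = _ at h0
    change b * _ = _ at h1
    simp only [i0]
    rw [h0, h1]; ring

/-- The vertex in front of a state. -/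
def ch (f : St) : Finset V := {f 0, f 1, f 2, ap f}

lemma mem_ch {f : St} {x : V} : x ∈ ch f ↔ (∃ c, x = f c) ∨ x = ap f := by
  simp only [ch, Finset.mem_insert, Finset.mem_singleton]
  constructor
  · rintro (h | h | h | h)
    exacts [Or.inl ⟨0, h⟩, Or.inl ⟨1, h⟩, Or.inl ⟨2, h⟩, Or.inr h]
  · rintro (⟨c, h⟩ | h)
    · fin_cases c
      exacts [Or.inl h, Or.inr (Or.inl h), Or.inr (Or.inr (Or.inl h))]
    · exact Or.inr (Or.inr (Or.inr h))

lemma mem_ch_prv {ω : Cf} {f : St} (hf : Good ω f) {x : V} :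
    x ∈ ch (prv ω f) ↔ (∃ c, x = f c) ∨ x = am f := by
  rw [mem_ch, ap_prv hf.1]
  unfold prv
  constructor
  · rintro (⟨c, h⟩ | h)
    · by_cases hc : c = ω (am f)
      · right; rw [h, hc]; simp
      · left; exact ⟨c, by rw [h, Function.update_of_ne hc]⟩
    · exact Or.inl ⟨_, h⟩
  · rintro (⟨c, h⟩ | h)
    · by_cases hc : c = ω (am f)
      · right; rw [h, hc]
      · left; exact ⟨c, by rw [h, Function.update_of_ne hc]⟩
    · exact Or.inl ⟨ω (am f), by simp [h]⟩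

lemma ch_inj {ω : Cf} {f g : St} (hf : Good ω f) (hg : Good ω g) (h : ch f = ch g) : f = g := by
  have h1 : ∀ c, g c = f c ∨ (g c = ap f ∧ ω (ap f) = c) := by
    intro c
    have : g c ∈ ch f := h ▸ mem_ch.2 (Or.inl ⟨c, rfl⟩)
    rcases mem_ch.1 this with ⟨c', hc⟩ | hc
    · have e : c' = c := by rw [← hf.2 c', ← hc, hg.2]
      exact Or.inl (e ▸ hc)
    · exact Or.inr ⟨hc, by rw [← hc, hg.2]⟩
  rcases h1 (ω (ap f)) with h2 | h2
  · funext c
    rcases h1 c with h3 | h3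
    · exact h3.symm
    · rw [← h3.2, h2]
  · exfalso
    have e : g = nxt ω f := by
      funext c
      unfold nxt
      by_cases hc : c = ω (ap f)
      · rw [hc, h2.1]; simp
      · rw [Function.update_of_ne hc]
        rcases h1 c with h3 | h3
        · exact h3
        · exact absurd h3.2.symm hc
    have h3 : ap g ∈ ch f := h ▸ mem_ch.2 (Or.inr rfl)
    rcases mem_ch.1 h3 with ⟨c, hc⟩ | hc
    · by_cases h4 : c = ω (ap f)
      · exact ap_ne_am g hg.1 (by rw [hc, h4, e, am_nxt hf.1])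
      · rcases h1 c with h5 | h5
        · exact ap_ne g hg.1 c (by rw [hc, h5])
        · exact h4 h5.2.symm
    · exact ap_ne g hg.1 _ (hc.trans h2.1.symm)

lemma ch_lev {f : St} (hf : Valid f) {x : V} (hx : x ∈ ch f) :
    x.1 ≤ (f 0).1 + 1 ∧ (f 0).1 ≤ x.1 + 1 := by
  rcases mem_ch.1 hx with ⟨c, rfl⟩ | rfl
  · exact ⟨lev_near f hf c 0, lev_near f hf 0 c⟩
  · exact L_near f hf 0

variable {ρ : W → ℤ} (F : Frame ρ)

lemma chamber_eq {Q T : Finset W} (hQ : Q.card = 4) (hT : T.card = 3) (hTQ : T ⊆ Q)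
    (hadj : ∀ v ∈ Q, ∀ w ∈ Q, v ≠ w → Adj v w) {u : Fin 3 → W} (hu : ∀ x, x ∈ T ↔ ∃ c, x = u c) :
    ∃ a, a ∉ T ∧ F.ι (F.κ a) = a ∧ (∀ c, F.κ a - F.κ (u c) ∈ nb) ∧
      ∀ x, x ∈ Q ↔ (∃ c, x = u c) ∨ x = a := by
  obtain ⟨a, ha, rfl⟩ := Finset.exists_eq_insert_iff.2 ⟨hTQ, by omega⟩
  have h1 : ∀ c, Adj (u c) a := fun c =>
    hadj _ (hTQ ((hu _).2 ⟨c, rfl⟩)) _ (Finset.mem_insert_self _ _)
      (fun h => ha (h ▸ (hu _).2 ⟨c, rfl⟩))
  refine ⟨a, ha, F.ικ _ _ (adj_symm (h1 0)), fun c => F.nbr _ _ (h1 c), fun x => ?_⟩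
  rw [Finset.mem_insert, hu, or_comm]

lemma step_state {ω : W → Fin 3} {Q R : Finset W} (h : Step ω Q R) :
    ∃ g g' : St, Good (ω ∘ F.ι) g ∧ Good (ω ∘ F.ι) g' ∧ Q = (ch g).image F.ι ∧
      R = (ch g').image F.ι ∧ (g' = nxt (ω ∘ F.ι) g ∨ g = nxt (ω ∘ F.ι) g') := by
  obtain ⟨hQ, hR, hne, aQ, aR, h3, hc⟩ := h
  choose u hu hcol using hc
  have uinj : Function.Injective u := fun c c' h => by rw [← hcol c, h, hcol]
  have hT : ∀ x, x ∈ Q ∩ R ↔ ∃ c, x = u c := by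
    have e : Finset.univ.image u = Q ∩ R := Finset.eq_of_subset_of_card_le
      (fun x hx => by obtain ⟨c, _, rfl⟩ := Finset.mem_image.1 hx; exact hu c)
      (by rw [Finset.card_image_of_injective _ uinj, h3]; simp)
    intro x
    rw [← e]
    simp [eq_comm]
  have adj : ∀ c c', c ≠ c' → Adj (u c) (u c') := fun c c' h =>
    aQ _ (Finset.mem_inter.1 (hu c)).1 _ (Finset.mem_inter.1 (hu c')).1 (fun e => h (uinj e))
  have iu : ∀ c, F.ι (F.κ (u c)) = u c := fun c =>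
    F.ικ _ _ (adj c (c + 1) (by fin_cases c <;> decide))
  set f : St := fun c => F.κ (u c) with hf
  have gf : Good (ω ∘ F.ι) f :=
    ⟨⟨F.nbr _ _ (adj 0 1 (by decide)), F.nbr _ _ (adj 0 2 (by decide)),
      F.nbr _ _ (adj 1 2 (by decide))⟩, fun c => by simp [hf, iu, hcol]⟩
  obtain ⟨a, ha, ia, na, mQ⟩ := chamber_eq F hQ h3 Finset.inter_subset_left aQ hT
  obtain ⟨b, hb, ib, nb', mR⟩ := chamber_eq F hR h3 Finset.inter_subset_right aR hT
  have hab : F.κ a ≠ F.κ b := by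
    intro e
    have : a = b := by rw [← ia, e, ib]
    exact hne (Finset.ext (fun x => by rw [mQ, mR, this]))
  have im : ∀ (S : Finset W) (T : Finset V) (a : W), F.ι (F.κ a) = a →
      (∀ x, x ∈ S ↔ (∃ c, x = u c) ∨ x = a) → (∀ x, x ∈ T ↔ (∃ c, x = f c) ∨ x = F.κ a) →
      S = T.image F.ι := by
    intro S T a ia hS hT
    ext x
    rw [hS, Finset.mem_image]
    constructor
    · rintro (⟨c, rfl⟩ | rfl)
      · exact ⟨f c, (hT _).2 (Or.inl ⟨c, rfl⟩), iu c⟩
      · exact ⟨F.κ x, (hT _).2 (Or.inr rfl), ia⟩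
    · rintro ⟨y, hy, rfl⟩
      rcases (hT y).1 hy with ⟨c, rfl⟩ | rfl
      · exact Or.inl ⟨c, iu c⟩
      · exact Or.inr ia
  rcases common_nb f gf.1 _ na with ea | ea <;> rcases common_nb f gf.1 _ nb' with eb | eb
  · exact absurd (ea.trans eb.symm) hab
  · exact ⟨f, prv _ f, gf, good_prv gf, im _ _ a ia mQ (fun x => by rw [mem_ch, ea]),
      im _ _ b ib mR (fun x => by rw [mem_ch_prv gf, eb]), Or.inr (nxt_prv gf).symm⟩
  · exact ⟨prv _ f, f, good_prv gf, gf, im _ _ a ia mQ (fun x => by rw [mem_ch_prv gf, ea]),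
      im _ _ b ib mR (fun x => by rw [mem_ch, eb]), Or.inl (nxt_prv gf).symm⟩
  · exact absurd (ea.trans eb.symm) hab

/-- A walk along tricolor edges lifts to a walk of states. -/
lemma walk_states {ω : W → Fin 3} {y : ℕ → Finset W} {P : ℕ → Prop} (h0 : P 0)
    (hP : ∀ k, P (k + 1) → P k) (h : ∀ k, P k → Step ω (y k) (y (k + 1))) :
    ∃ g : ℕ → St, (Good (ω ∘ F.ι) (g 0) ∧ y 0 = (ch (g 0)).image F.ι) ∧ ∀ k, P k →
      (Good (ω ∘ F.ι) (g (k + 1)) ∧ y (k + 1) = (ch (g (k + 1))).image F.ι) ∧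
        (g (k + 1) = nxt (ω ∘ F.ι) (g k) ∨ g k = nxt (ω ∘ F.ι) (g (k + 1))) := by
  classical
  have ex : ∀ k, ∃ g : St, (k = 0 ∨ P (k - 1)) →
      Good (ω ∘ F.ι) g ∧ y k = (ch g).image F.ι := by
    intro k
    rcases k with _ | k
    · obtain ⟨g, _, a, _, b, _⟩ := step_state F (h 0 h0)
      exact ⟨g, fun _ => ⟨a, b⟩⟩
    · by_cases hk : P k
      · obtain ⟨_, g, _, a, _, b, _⟩ := step_state F (h k hk)
        exact ⟨g, fun _ => ⟨a, b⟩⟩
      · exact ⟨fun _ => 0, fun h => by simp [hk] at h⟩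
  choose g hg using ex
  refine ⟨g, hg 0 (Or.inl rfl), fun k hk => ⟨hg (k + 1) (Or.inr hk), ?_⟩⟩
  obtain ⟨a, b, ga, gb, ea, eb, hab⟩ := step_state F (h k hk)
  have g1 := hg k (by
    rcases k with _ | k
    · exact Or.inl rfl
    · exact Or.inr (hP k hk))
  have g2 := hg (k + 1) (Or.inr hk)
  have e1 : g k = a := ch_inj g1.1 ga (Finset.image_injective F.inj (g1.2.symm.trans ea))
  have e2 : g (k + 1) = b := ch_inj g2.1 gb (Finset.image_injective F.inj (g2.2.symm.trans eb))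
  rw [e1, e2]; exact hab

lemma walk_orbit {ω : Cf} {g : ℕ → St} {m : ℕ} (h0 : Good ω (g 0)) (h : ∀ k < m,
    Good ω (g (k + 1)) ∧ (g (k + 1) = nxt ω (g k) ∨ g k = nxt ω (g (k + 1)))) :
    ∀ k ≤ m, Good ω (g k) ∧ ∃ t ≤ k, g k = o ω (g 0) t ∨ g 0 = o ω (g k) t := by
  intro k
  induction k with
  | zero => exact fun _ => ⟨h0, 0, le_rfl, Or.inl rfl⟩
  | succ k ih =>
    intro hk
    obtain ⟨gk, t, ht, h1⟩ := ih (by omega)
    obtain ⟨gk', h2⟩ := h k (by omega)
    refine ⟨gk', ?_⟩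
    rcases h1 with h1 | h1 <;> rcases h2 with h2 | h2
    · exact ⟨t + 1, by omega, Or.inl (by rw [o_succ, ← h1, h2])⟩
    · rcases t with _ | s
      · exact ⟨1, by omega, Or.inr (by rw [o_succ, o_zero, ← h2, h1, o_zero])⟩
      · rw [o_succ, h2] at h1
        exact ⟨s, by omega, Or.inl (nxt_inj gk' (good_o h0 s) h1)⟩
    · rcases t with _ | s
      · exact ⟨1, by omega, Or.inl (by rw [o_succ, o_zero, h2, h1, o_zero])⟩
      · exact ⟨s, by omega, Or.inr (by rw [h1, o_succ', h2])⟩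
    · exact ⟨t + 1, by omega, Or.inr (by rw [o_succ', ← h2, h1])⟩

lemma back_orbit {ω : Cf} {f g : St} {t : ℕ} (hg : Good ω g) (h : f = o ω g t) :
    Good (ω ∘ rf) (rf ∘ f) ∧ rf ∘ g = o (ω ∘ rf) (rf ∘ f) t := by
  subst h
  refine ⟨good_rf _ (good_o hg t), ?_⟩
  have := o_rf (ω ∘ rf) (g := g) hg t t le_rfl
  rw [Nat.sub_self, o_zero] at this
  exact this.symm

lemma ray_orbit {ω : Cf} {g : ℕ → St} (hi : Function.Injective g) (hg : ∀ k, Good ω (g k))
    (h : ∀ k, g (k + 1) = nxt ω (g k) ∨ g k = nxt ω (g (k + 1))) :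
    (∀ k, g k = o ω (g 0) k) ∨ (∀ k, rf ∘ g k = o (ω ∘ rf) (rf ∘ g 0) k) := by
  rcases h 0 with h0 | h0
  · left
    have h1 : ∀ k, g (k + 1) = nxt ω (g k) := by
      intro k
      induction k with
      | zero => exact h0
      | succ k ih =>
        rcases h (k + 1) with h2 | h2
        · exact h2
        · have := hi (nxt_inj (hg _) (hg _) (ih.symm.trans h2))
          omega
    intro k
    induction k with
    | zero => rfl
    | succ k ih => rw [o_succ, ← ih, h1]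
  · right
    have h1 : ∀ k, g k = nxt ω (g (k + 1)) := by
      intro k
      induction k with
      | zero => exact h0
      | succ k ih =>
        rcases h (k + 1) with h2 | h2
        · have := hi (ih.trans h2.symm)
          omega
        · exact h2
    have h2 : ∀ k, g 0 = o ω (g k) k := by
      intro k
      induction k with
      | zero => rfl
      | succ k ih => rw [o_succ', ← h1, ih]
    exact fun k => (back_orbit (hg k) (h2 k)).2

end Pool.Agent.MP_5f6c2d_pr
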