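import Mathlib.Tactic.Monotonicity.Lemmas
import Mathlib.Order.Interval.Finset.Box
import Mathlib.MeasureTheory.Measure.MeasuredSets
import Mathlib.Probability.ProductMeasure
import Pool.Agent.MP_5f6c2d_pr.Kuhn
import Pool.Agent.MP_5f6c2d_pr.Bridge

-- ======== part 0: formerly Pool.Agent.MP_5f6c2d_pr.Prob
section MrgPart0

/-! Product-measure tools: reindexing, splicing, cylinders, mixing, mass transport. -/

set_option autoImplicit false

open MeasureTheory Set
open scoped ENNReal symmDiff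

namespace Pool.Agent.MP_5f6c2d_pr

/-- The i.i.d. colouring law. -/
noncomputable def PP (α : Type) (ν : Measure (Fin 3)) : Measure (α → Fin 3) :=
  Measure.infinitePi (fun _ : α => ν)

variable {ν : Measure (Fin 3)} [IsProbabilityMeasure ν]

instance (α : Type) : IsProbabilityMeasure (PP α ν) := by unfold PP; infer_instance

lemma PP_pi {α : Type} (s : Finset α) (t : α → Set (Fin 3)) :
    PP α ν (Set.pi s t) = ∏ i ∈ s, ν (t i) :=
  Measure.infinitePi_pi _ (fun _ _ => MeasurableSet.of_discrete)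

lemma meas_comp {α β : Type} (φ : α → β) : Measurable (fun ω : β → Fin 3 => ω ∘ φ) :=
  measurable_pi_lambda _ (fun a => measurable_pi_apply (φ a))

lemma PP_map_comp {α β : Type} (φ : α → β) (hφ : Function.Injective φ) :
    (PP β ν).map (fun ω => ω ∘ φ) = PP α ν := by
  classical
  refine Measure.eq_infinitePi _ (fun s t ht => ?_)
  rw [Measure.map_apply (meas_comp φ) (MeasurableSet.pi s.countable_toSet (fun i _ => ht i))]
  have e : (fun ω : β → Fin 3 => ω ∘ φ) ⁻¹' (Set.pi s t) =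
      Set.pi (s.image φ : Finset β) (Function.extend φ t (fun _ => univ)) := by
    ext ω
    simp only [mem_preimage, mem_pi, Finset.mem_coe, Function.comp, Finset.coe_image, mem_image]
    constructor
    · rintro h _ ⟨a, ha, rfl⟩
      rw [hφ.extend_apply]; exact h a ha
    · intro h a ha
      have := h (φ a) ⟨a, ha, rfl⟩
      rwa [hφ.extend_apply] at this
  rw [e, PP_pi, Finset.prod_image (fun a _ b _ h => hφ h)]
  exact Finset.prod_congr rfl (fun a _ => by rw [hφ.extend_apply])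

lemma PP_comp {α β : Type} (φ : α → β) (hφ : Function.Injective φ) {A : Set (α → Fin 3)}
    (hA : MeasurableSet A) : PP β ν {ω | ω ∘ φ ∈ A} = PP α ν A := by
  rw [← PP_map_comp φ hφ, Measure.map_apply (meas_comp φ) hA]; rfl

lemma PP_sh (w : V) {A : Set Cf} (hA : MeasurableSet A) : PP V ν {ω | sh w ω ∈ A} = PP V ν A :=
  PP_comp (fun v => v + w) (add_left_injective w) hA

/-! ### Splicing -/

open Classical in
/-- `ζ` on `F` and `η` off `F`. -/
noncomputable def sp {α : Type} (F : Set α) (η ζ : α → Fin 3) : α → Fin 3 :=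
  fun v => if v ∈ F then ζ v else η v

lemma sp_in {α : Type} {F : Set α} (η ζ : α → Fin 3) {v : α} (h : v ∈ F) : sp F η ζ v = ζ v := by
  simp [sp, h]
lemma sp_out {α : Type} {F : Set α} (η ζ : α → Fin 3) {v : α} (h : v ∉ F) : sp F η ζ v = η v := by
  simp [sp, h]

lemma meas_sp {α : Type} (F : Set α) :
    Measurable (fun x : (α → Fin 3) × (α → Fin 3) => sp F x.1 x.2) := by
  refine measurable_pi_lambda _ (fun v => ?_)
  by_cases h : v ∈ F
  · simp only [sp_in _ _ h]; exact (measurable_pi_apply v).comp measurable_snd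
  · simp only [sp_out _ _ h]; exact (measurable_pi_apply v).comp measurable_fst

lemma meas_sp_right {α : Type} (F : Set α) (η : α → Fin 3) : Measurable (fun ζ => sp F η ζ) :=
  (meas_sp F).comp (measurable_const.prodMk measurable_id)

lemma PP_map_sp {α : Type} (F : Set α) :
    ((PP α ν).prod (PP α ν)).map (fun x => sp F x.1 x.2) = PP α ν := by
  classical
  refine Measure.eq_infinitePi _ (fun s t ht => ?_)
  rw [Measure.map_apply (meas_sp F) (MeasurableSet.pi s.countable_toSet (fun i _ => ht i))]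
  have e : (fun x : (α → Fin 3) × (α → Fin 3) => sp F x.1 x.2) ⁻¹' (Set.pi s t) =
      (Set.pi (s.filter (fun v => v ∉ F) : Finset α) t) ×ˢ
        (Set.pi (s.filter (fun v => v ∈ F) : Finset α) t) := by
    ext x
    simp only [mem_preimage, mem_pi, Finset.mem_coe, mem_prod, Finset.mem_filter]
    constructor
    · intro h
      exact ⟨fun v hv => by have := h v hv.1; rwa [sp_out _ _ hv.2] at this,
        fun v hv => by have := h v hv.1; rwa [sp_in _ _ hv.2] at this⟩
    · intro h v hv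
      by_cases hF : v ∈ F
      · rw [sp_in _ _ hF]; exact h.2 v ⟨hv, hF⟩
      · rw [sp_out _ _ hF]; exact h.1 v ⟨hv, hF⟩
  rw [e, Measure.prod_prod, PP_pi, PP_pi, mul_comm]
  exact Finset.prod_filter_mul_prod_filter_not s (fun v => v ∈ F) _

/-- `A` only depends on the colours off `F`. -/
def Off {α : Type} (F : Set α) (A : Set (α → Fin 3)) : Prop :=
  ∀ ω ω' : α → Fin 3, (∀ v, v ∉ F → ω' v = ω v) → ω ∈ A → ω' ∈ A

lemma Off.sp_iff {α : Type} {F : Set α} {A : Set (α → Fin 3)} (h : Off F A) (η ζ : α → Fin 3) :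
    sp F η ζ ∈ A ↔ η ∈ A :=
  ⟨h _ _ (fun _ hv => (sp_out _ _ hv).symm), h _ _ (fun _ hv => sp_out _ _ hv)⟩

lemma Off.inter {α : Type} {F : Set α} {A B : Set (α → Fin 3)} (hA : Off F A) (hB : Off F B) :
    Off F (A ∩ B) := fun ω ω' h hm => ⟨hA ω ω' h hm.1, hB ω ω' h hm.2⟩

lemma Off.mono {α : Type} {F F' : Set α} {A : Set (α → Fin 3)} (hA : Off F A) (h : F' ⊆ F) :
    Off F' A := fun ω ω' hh hm => hA ω ω' (fun v hv => hh v (fun h' => hv (h h'))) hm

lemma cond_eq {α : Type} (F : Set α) {A G : Set (α → Fin 3)} (hA : MeasurableSet A)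
    (hG : MeasurableSet G) (hoff : Off F A) :
    PP α ν (A ∩ G) = ∫⁻ η in A, PP α ν {ζ | sp F η ζ ∈ G} ∂(PP α ν) := by
  conv_lhs => rw [← PP_map_sp (ν := ν) F]
  rw [Measure.map_apply (meas_sp F) (hA.inter hG),
    Measure.prod_apply ((meas_sp F) (hA.inter hG)), ← lintegral_indicator hA]
  refine lintegral_congr (fun η => ?_)
  by_cases h : η ∈ A
  · rw [indicator_of_mem h]
    congr 1
    ext ζ
    simp [hoff.sp_iff, h]
  · rw [indicator_of_notMem h]
    have : Prod.mk η ⁻¹' ((fun x : (α → Fin 3) × (α → Fin 3) => sp F x.1 x.2) ⁻¹' (A ∩ G)) = ∅ := by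
      ext ζ
      simp [hoff.sp_iff, h]
    rw [this, measure_empty]

lemma cond_le {α : Type} (F : Set α) {A G : Set (α → Fin 3)} (hA : MeasurableSet A)
    (hG : MeasurableSet G) (hoff : Off F A) {δ : ℝ≥0∞}
    (h : ∀ η ∈ A, PP α ν {ζ | sp F η ζ ∈ G} ≤ δ) : PP α ν (A ∩ G) ≤ δ * PP α ν A := by
  rw [cond_eq F hA hG hoff, ← setLIntegral_const]
  exact setLIntegral_mono' hA h

lemma cond_ge {α : Type} (F : Set α) {A G : Set (α → Fin 3)} (hA : MeasurableSet A)
    (hG : MeasurableSet G) (hoff : Off F A) {δ : ℝ≥0∞}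
    (h : ∀ η ∈ A, δ ≤ PP α ν {ζ | sp F η ζ ∈ G}) : δ * PP α ν A ≤ PP α ν (A ∩ G) := by
  rw [cond_eq F hA hG hoff, ← setLIntegral_const]
  exact setLIntegral_mono' hA h

lemma indep_eq {α : Type} (F : Set α) {A G : Set (α → Fin 3)} (hA : MeasurableSet A)
    (hG : MeasurableSet G) (hoff : Off F A) (hon : Off Fᶜ G) :
    PP α ν (A ∩ G) = PP α ν G * PP α ν A := by
  have e : ∀ η, {ζ | sp F η ζ ∈ G} = G := by
    intro η
    ext ζ
    exact ⟨hon _ _ (fun v hv => (sp_in _ _ (not_not.1 hv)).symm),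
      hon _ _ (fun v hv => sp_in _ _ (not_not.1 hv))⟩
  exact le_antisymm (cond_le F hA hG hoff (fun η _ => by rw [e]))
    (cond_ge F hA hG hoff (fun η _ => by rw [e]))

/-! ### Cylinders -/

lemma meas_sat (l : List (V × Fin 3)) : MeasurableSet {ω : Cf | Sat ω l} := by
  have : {ω : Cf | Sat ω l} = ⋂ x ∈ {x | x ∈ l}, (fun ω : Cf => ω x.1) ⁻¹' {x.2} := by
    ext ω; simp [Sat]
  rw [this]
  exact MeasurableSet.biInter (List.finite_toSet l).countable
    (fun x _ => measurable_pi_apply x.1 (measurableSet_singleton _))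

lemma sat_ge {q : ℝ≥0∞} (hq : ∀ c, q ≤ ν {c}) (l : List (V × Fin 3)) (σ : Cf) (hσ : Sat σ l) :
    q ^ l.length ≤ PP V ν {ω | Sat ω l} := by
  classical
  have hq1 : q ≤ 1 := (hq 0).trans prob_le_one
  have sub : Set.pi ((l.map Prod.fst).toFinset : Finset V) (fun v => {σ v}) ⊆ {ω | Sat ω l} := by
    intro ω h x hx
    have := h x.1 (by simp only [Finset.mem_coe, List.mem_toFinset]; exact List.mem_map_of_mem hx)
    rw [this]; exact hσ x hx
  refine le_trans ?_ (measure_mono sub)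
  rw [PP_pi]
  calc q ^ l.length ≤ q ^ ((l.map Prod.fst).toFinset.card) :=
        pow_le_pow_right_of_le_one' hq1 ((List.toFinset_card_le _).trans (by simp))
    _ = ∏ _i ∈ (l.map Prod.fst).toFinset, q := by simp
    _ ≤ _ := Finset.prod_le_prod' (fun i _ => hq _)

/-- A list of constraints without conflicts can be satisfied. -/
lemma exists_sat (l : List (V × Fin 3)) (h : ∀ x ∈ l, ∀ y ∈ l, x.1 = y.1 → x.2 = y.2) :
    ∃ σ : Cf, Sat σ l := by
  classical
  refine ⟨fun v => if hv : ∃ x ∈ l, x.1 = v then hv.choose.2 else 0, fun x hx => ?_⟩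
  have hv : ∃ y ∈ l, y.1 = x.1 := ⟨x, hx, rfl⟩
  simp only [dif_pos hv]
  exact h _ hv.choose_spec.1 _ hx hv.choose_spec.2

lemma off_sat (F : Set V) (l : List (V × Fin 3)) (h : ∀ x ∈ l, x.1 ∉ F) :
    Off F {ω | Sat ω l} := fun _ _ hh hm x hx => (hh _ (h x hx)).trans (hm x hx)

/-! ### Mixing -/

lemma approx_local {α : Type} {A : Set (α → Fin 3)} (hA : MeasurableSet A) {ε : ℝ≥0∞}
    (hε : 0 < ε) : ∃ (F : Finset α) (B : Set (α → Fin 3)), MeasurableSet B ∧
      Off (F : Set α)ᶜ B ∧ PP α ν (B ∆ A) < ε := by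
  obtain ⟨B, hB, hlt⟩ := exists_measure_symmDiff_lt_of_generateFrom_isSetRing
    (μ := PP α ν) (isSetRing_measurableCylinders (α := fun _ : α => Fin 3))
    ⟨{univ}, countable_singleton _, by
      intro s hs; rw [mem_singleton_iff.1 hs]; exact univ_mem_measurableCylinders _, by simp⟩
    generateFrom_measurableCylinders.symm hA hε
  obtain ⟨F, S, hS, rfl⟩ := (mem_measurableCylinders B).1 hB
  refine ⟨F, _, hS.cylinder, ?_, hlt⟩
  intro ω ω' h hm
  rw [mem_cylinder] at hm ⊢
  have : F.restrict ω' = F.restrict ω := by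
    funext v
    exact h v (by simp)
  rwa [this]

lemma mix_pos {A : Set Cf} (hA : MeasurableSet A) (hpos : PP V ν A ≠ 0) (φ : ℕ → V → V)
    (hφ : ∀ j, Function.Injective (φ j))
    (hesc : ∀ F : Finset V, ∃ j, ∀ v ∈ F, φ j v ∉ F) :
    ∃ j, PP V ν (A ∩ {ω | ω ∘ φ j ∈ A}) ≠ 0 := by
  classical
  set a := (PP V ν).real A with ha
  have ha0 : 0 < a := ENNReal.toReal_pos hpos (measure_ne_top _ _)
  have ha1 : a ≤ 1 := measureReal_le_one
  obtain ⟨F, B, hB, hoff, hlt⟩ := approx_local (ν := ν) hA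
    (ε := ENNReal.ofReal (a ^ 2 / 10)) (by simp; positivity)
  obtain ⟨j, hj⟩ := hesc F
  refine ⟨j, fun h0 => ?_⟩
  have hd : (PP V ν).real (B ∆ A) < a ^ 2 / 10 := by
    have := (ENNReal.toReal_lt_toReal (measure_ne_top _ _) ENNReal.ofReal_ne_top).2 hlt
    rwa [ENNReal.toReal_ofReal (by positivity)] at this
  have hBm : MeasurableSet {ω : Cf | ω ∘ φ j ∈ B} := meas_comp (φ j) hB
  have hind : PP V ν (B ∩ {ω | ω ∘ φ j ∈ B}) = PP V ν B * PP V ν B := by
    rw [indep_eq (F : Set V)ᶜ hB hBm hoff, PP_comp _ (hφ j) hB]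
    intro ω ω' h hm
    refine hoff (ω ∘ φ j) (ω' ∘ φ j) (fun v hv => h _ ?_) hm
    simpa using hj v (by simpa using hv)
  have h1 : a ≤ (PP V ν).real B + (PP V ν).real (B ∆ A) := by
    refine le_trans (measureReal_mono ?_) (measureReal_union_le _ _)
    intro ω hω
    by_cases hb : ω ∈ B
    · exact Or.inl hb
    · exact Or.inr (Or.inr ⟨hω, hb⟩)
  have h2 : (PP V ν).real (B ∩ {ω | ω ∘ φ j ∈ B}) ≤
      (PP V ν).real (A ∩ {ω | ω ∘ φ j ∈ A}) + ((PP V ν).real (B ∆ A) +
        (PP V ν).real {ω | ω ∘ φ j ∈ B ∆ A}) := by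
    refine le_trans (measureReal_mono ?_) ((measureReal_union_le _ _).trans
      (add_le_add le_rfl (measureReal_union_le _ _)))
    rintro ω ⟨h1, h2⟩
    by_cases a1 : ω ∈ A
    · by_cases a2 : ω ∘ φ j ∈ A
      · exact Or.inl ⟨a1, a2⟩
      · exact Or.inr (Or.inr (Or.inl ⟨h2, a2⟩))
    · exact Or.inr (Or.inl (Or.inl ⟨h1, a1⟩))
  have h3 : (PP V ν).real {ω | ω ∘ φ j ∈ B ∆ A} = (PP V ν).real (B ∆ A) := by
    unfold Measure.real
    rw [PP_comp _ (hφ j) (hB.symmDiff hA)]
  have h4 : (PP V ν).real (B ∩ {ω | ω ∘ φ j ∈ B}) = (PP V ν).real B * (PP V ν).real B := by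
    unfold Measure.real
    rw [hind, ENNReal.toReal_mul]
  have h5 : (PP V ν).real (A ∩ {ω | ω ∘ φ j ∈ A}) = 0 := by
    unfold Measure.real
    rw [h0]; rfl
  rw [h3, h4, h5] at h2
  have hb : a - a ^ 2 / 10 ≤ (PP V ν).real B := by linarith
  have hb' : 9 / 10 * a ≤ (PP V ν).real B := by nlinarith
  nlinarith [mul_self_le_mul_self (by positivity) hb']

/-! ### Measurability of orbits -/

lemma meas_o (f : St) (k : ℕ) : Measurable (fun ω : Cf => o ω f k) := by
  induction k with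
  | zero => exact measurable_const
  | succ k ih =>
    simp only [o_succ]
    have h : Measurable (fun x : Cf × St => nxt x.1 x.2) := by
      refine measurable_from_prod_countable_left (fun g => ?_)
      exact (measurable_of_countable (fun c : Fin 3 => Function.update g c (ap g))).comp
        (measurable_pi_apply (ap g))
    exact h.comp (measurable_id.prodMk ih)

lemma meas_Q (Q : St → Prop) (f : St) (k : ℕ) : Measurable (fun ω : Cf => Q (o ω f k)) :=
  (measurable_of_countable Q).comp (meas_o f k)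

lemma meas_good (f : St) : Measurable (fun ω : Cf => Good ω f) := by
  unfold Good
  refine measurable_const.and (Measurable.forall (fun c => ?_))
  exact (measurable_of_countable (fun x : Fin 3 => x = c)).comp (measurable_pi_apply (f c))

/-! ### Mass transport -/

/-- States whose first cell lies on the vertical axis. -/
abbrev Φ : Type := {f : St // (f 0).2 = 0}

def hz (γ : ℤ × ℤ) : V := (0, γ)

def splitSt : (ℤ × ℤ) × Φ ≃ St where
  toFun x := tr (hz x.1) x.2.1
  invFun f := ((f 0).2, ⟨tr (hz (-(f 0).2)) f, by simp [hz]⟩)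
  left_inv := by
    rintro ⟨γ, ⟨f, hf⟩⟩
    have e : (tr (hz γ) f 0).2 = γ := by simp [hz, hf]
    simp only [e, Prod.mk.injEq, true_and]
    refine Subtype.ext ?_
    simp only [tr_tr]
    have : hz γ + hz (-γ) = 0 := by simp [hz]
    rw [this, tr_zero]
  right_inv := by
    intro f
    simp only [tr_tr]
    have : hz (-(f 0).2) + hz (f 0).2 = 0 := by simp [hz]
    rw [this, tr_zero]

lemma mass_transport (h : St → St → ℝ≥0∞)
    (hinv : ∀ γ f g, h (tr (hz γ) f) (tr (hz γ) g) = h f g) :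
    ∑' f : Φ, ∑' g : St, h f.1 g = ∑' g : Φ, ∑' f : St, h f g.1 := by
  have e1 : ∀ f : Φ, ∑' g : St, h f.1 g = ∑' γ : ℤ × ℤ, ∑' g : Φ, h (tr (hz γ) f.1) g.1 := by
    intro f
    rw [← splitSt.tsum_eq, ENNReal.tsum_prod', ← (Equiv.neg (ℤ × ℤ)).tsum_eq]
    refine tsum_congr (fun γ => tsum_congr (fun g => ?_))
    rw [← hinv γ]
    simp only [splitSt, Equiv.coe_fn_mk, Equiv.neg_apply, tr_tr]
    have : hz (-γ) + hz γ = 0 := by simp [hz]
    rw [this, tr_zero]
  have e2 : ∀ g : Φ, ∑' f : St, h f g.1 = ∑' γ : ℤ × ℤ, ∑' f : Φ, h (tr (hz γ) f.1) g.1 := by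
    intro g
    rw [← splitSt.tsum_eq, ENNReal.tsum_prod']
    rfl
  simp only [e1, e2]
  rw [ENNReal.tsum_comm, ENNReal.tsum_comm (f := fun (g : Φ) (γ : ℤ × ℤ) => _)]
  exact tsum_congr (fun γ => ENNReal.tsum_comm)

/-- Density per unit of horizontal area. -/
noncomputable def dens (ν : Measure (Fin 3)) (E : Cf → St → Prop) : ℝ≥0∞ :=
  ∑' f : Φ, PP V ν {ω | E ω f.1}

lemma dens_mono {E E' : Cf → St → Prop} (h : ∀ ω f, E ω f → E' ω f) : dens ν E ≤ dens ν E' :=
  ENNReal.tsum_le_tsum (fun f => measure_mono (fun ω hω => h ω f.1 hω))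

lemma le_dens (E : Cf → St → Prop) (f : St) (hf : (f 0).2 = 0) : PP V ν {ω | E ω f} ≤ dens ν E :=
  ENNReal.le_tsum (f := fun f : Φ => PP V ν {ω | E ω f.1}) (⟨f, hf⟩ : Φ)

lemma mt_le (R : Cf → St → St → Prop) (D E : Cf → St → Prop) (m : ℕ)
    (hm : ∀ f g, MeasurableSet {ω | R ω f g})
    (hinv : ∀ ω w f g, w.1 = 0 → (R ω (tr w f) (tr w g) ↔ R (sh w ω) f g))
    (hD : ∀ ω f, D ω f → ∃ s : Finset St, m ≤ s.card ∧ ∀ g ∈ s, R ω f g)
    (hDm : ∀ f, MeasurableSet {ω | D ω f})
    (hinj : ∀ ω f f' g, R ω f g → R ω f' g → f = f')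
    (hE : ∀ ω f g, R ω f g → E ω g) : m * dens ν D ≤ dens ν E := by
  have key := mass_transport (fun f g => PP V ν {ω | R ω f g}) (by
    intro γ f g
    rw [← PP_sh (hz γ) (hm f g)]
    congr 1
    ext ω
    exact hinv ω _ f g rfl)
  unfold dens
  rw [← ENNReal.tsum_mul_left]
  refine le_trans (ENNReal.tsum_le_tsum (fun f => ?_)) (key.le.trans
    (ENNReal.tsum_le_tsum (fun g => ?_)))
  · have e : ∑' g : St, PP V ν {ω | R ω f.1 g} =
        ∫⁻ ω, ∑' g : St, indicator {ω | R ω f.1 g} (fun _ => (1 : ℝ≥0∞)) ω ∂(PP V ν) := by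
      rw [lintegral_tsum (fun g => (measurable_const.indicator (hm _ g)).aemeasurable)]
      exact tsum_congr (fun g => by rw [lintegral_indicator_const (hm _ g), one_mul])
    rw [e, ← lintegral_indicator_const (hDm f.1)]
    refine lintegral_mono (fun ω => ?_)
    by_cases hω : D ω f.1
    · rw [indicator_of_mem (show ω ∈ {ω | D ω f.1} from hω)]
      obtain ⟨s, hs, hR⟩ := hD ω f.1 hω
      refine le_trans ?_ (ENNReal.sum_le_tsum s)
      rw [Finset.sum_congr rfl (g := fun _ => (1 : ℝ≥0∞))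
        (fun g hg => indicator_of_mem (show ω ∈ {ω | R ω f.1 g} from hR g hg) _)]
      simpa using hs
    · rw [indicator_of_notMem (show ω ∉ {ω | D ω f.1} from hω)]; exact zero_le
  · rw [← measure_iUnion _ (fun f => hm f g.1)]
    · exact measure_mono (iUnion_subset (fun f ω hω => hE ω f g.1 hω))
    · intro f f' hne
      exact Set.disjoint_left.2 (fun ω h1 h2 => hne (hinj ω f f' g.1 h1 h2))

lemma dens_shift (E E' : Cf → St → Prop) (k : ℤ) (hm : ∀ f, MeasurableSet {ω | E ω f})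
    (h : ∀ ω f, E' ω (tr (k, 0) f) ↔ E (sh (k, 0) ω) f) : dens ν E' = dens ν E := by
  let e : Φ ≃ Φ :=
    { toFun := fun f => ⟨tr (k, 0) f.1, by simpa using f.2⟩
      invFun := fun f => ⟨tr (-k, 0) f.1, by simpa using f.2⟩
      left_inv := fun f => Subtype.ext (by funext c; simp [add_assoc])
      right_inv := fun f => Subtype.ext (by funext c; simp [add_assoc]) }
  unfold dens
  rw [← e.tsum_eq]
  refine tsum_congr (fun f => ?_)
  rw [← PP_sh (k, 0) (hm f.1)]
  congr 1
  ext ω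
  exact h ω f.1

lemma dens_slab (E : Cf → St → Prop) (a : ℤ) (n : ℕ)
    (h : ∀ ω f, E ω f → Valid f ∧ a ≤ (f 0).1 ∧ (f 0).1 < a + n) : dens ν E ≤ 196 * n := by
  classical
  let S : Finset St := ((Finset.Ico a (a + n)) ×ˢ (nb.toFinset ×ˢ nb.toFinset)).image
    (fun x => tr (x.1, 0) (mk0 x.2.1 x.2.2))
  have hS : S.card ≤ 196 * n := by
    refine Finset.card_image_le.trans ?_
    have : nb.toFinset.card ≤ 14 := List.toFinset_card_le nb
    rw [Finset.card_product, Finset.card_product, Int.card_Ico]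
    have e : (a + n - a).toNat = n := by simp
    rw [e]
    calc n * (nb.toFinset.card * nb.toFinset.card) ≤ n * (14 * 14) := by gcongr
      _ = 196 * n := by ring
  have hle : ∀ f : Φ, PP V ν {ω | E ω f.1} ≤ indicator (S : Set St) (fun _ => (1 : ℝ≥0∞)) f.1 := by
    intro f
    by_cases hf : f.1 ∈ (S : Set St)
    · rw [indicator_of_mem hf]; exact prob_le_one
    · have : {ω | E ω f.1} = ∅ := by
        ext ω
        simp only [mem_ofPred_eq, mem_empty_iff_false, iff_false]
        intro hE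
        obtain ⟨hv, h1, h2⟩ := h ω f.1 hE
        refine hf (Finset.mem_coe.2 (Finset.mem_image.2
          ⟨((f.1 0).1, f.1 1 - f.1 0, f.1 2 - f.1 0), ?_, ?_⟩))
        · simp only [Finset.mem_product, Finset.mem_Ico, List.mem_toFinset]
          exact ⟨⟨h1, h2⟩, hv.1, hv.2.1⟩
        · have e0 : ((f.1 0).1, (0 : ℤ × ℤ)) = f.1 0 := Prod.ext rfl f.2.symm
          funext c
          fin_cases c <;> simp [mk0, e0]
      rw [this, measure_empty]; exact zero_le
  refine (ENNReal.tsum_le_tsum hle).trans ?_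
  refine (ENNReal.tsum_comp_le_tsum_of_injective Subtype.val_injective
    (indicator (S : Set St) (fun _ => (1 : ℝ≥0∞)))).trans ?_
  rw [← tsum_subtype, Finset.tsum_subtype' S (fun _ => (1 : ℝ≥0∞))]
  simp only [Finset.sum_const, nsmul_eq_mul, mul_one]
  exact_mod_cast hS

end Pool.Agent.MP_5f6c2d_pr

end MrgPart0

-- ======== part 1: formerly Pool.Agent.MP_5f6c2d_pr.Null
section MrgPart1

/-! Either a colour is missing, or all colours have probability at least some `q > 0`. -/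

set_option autoImplicit false

open MeasureTheory Set Filter
open scoped ENNReal

namespace Pool.Agent.MP_5f6c2d_pr

lemma colour_cases (ν : Measure (Fin 3)) [IsProbabilityMeasure ν] :
    (∀ᵐ ω ∂(PP W ν), ∀ Q R, ¬ Step ω Q R) ∨ ∃ q : ℝ≥0∞, q ≠ 0 ∧ ∀ c, q ≤ ν {c} := by
  by_cases h : ∃ c, ν {c} = 0
  · left
    obtain ⟨c, hc⟩ := h
    have h1 : ∀ᵐ ω ∂(PP W ν), ∀ v, ω v ≠ c := by
      rw [ae_all_iff]
      intro v
      have := PP_pi (ν := ν) ({v} : Finset W) (fun _ => {c})
      rw [Finset.prod_singleton, hc] at this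
      filter_upwards [measure_eq_zero_iff_ae_notMem.1 this] with ω hω h
      exact hω (by simpa using h)
    filter_upwards [h1] with ω hω Q R hs
    obtain ⟨v, _, hv⟩ := hs.2.2.2.2.2.2 c
    exact hω v hv
  · right
    simp only [not_exists] at h
    obtain ⟨c, _, hc⟩ := Finset.exists_min_image Finset.univ (fun c => ν {c}) ⟨0, by simp⟩
    exact ⟨ν {c}, h c, fun c' => hc c' (by simp)⟩

lemma rf_inj : Function.Injective rf := fun a b h => by rw [← rf_rf a, h, rf_rf]

end Pool.Agent.MP_5f6c2d_pr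

end MrgPart1

-- marker of a merged file
example : 731051 + 556791 = 731051 + 556791 := rfl
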