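import Mathlib.Topology.Sheaves.Presheaf
import Pool.Agent.MP_5f6c2d_pr.Long
import Pool.Agent.MP_5f6c2d_pr.Null

-- ======== part 0: formerly Pool.Agent.MP_5f6c2d_pr.Attempts
section MrgPart0

/-! Climbing a tall slab within boundedly many attempts is unlikely; exponential bound. -/

set_option autoImplicit false
set_option linter.unusedSectionVars false

open MeasureTheory Set Filter Topology
open scoped ENNReal

namespace Pool.Agent.MP_5f6c2d_pr

variable {ν : Measure (Fin 3)} [IsProbabilityMeasure ν]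

def cross (ω : Cf) (e : St) (h : ℤ) (t : ℕ) : Finset ℕ :=
  (Finset.range t).filter (fun k => L (o ω e k) ≤ h ∧ h < L (o ω e (k + 1)))

def Qa (h : ℤ) (l N : ℕ) (ω : Cf) (e : St) : Prop :=
  Good ω e ∧ L e ≤ h ∧ ∃ t, h + l ≤ L (o ω e t) ∧ (cross ω e h t).card ≤ N

lemma meas_qa (h : ℤ) (l N : ℕ) (e : St) : MeasurableSet {ω | Qa h l N ω e} := by
  refine measurableSet_setOfPred.2 ((meas_good e).and (measurable_const.and
    (Measurable.exists (fun t => (meas_Q (fun x => h + l ≤ L x) e t).and ?_))))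
  have h1 : Measurable (fun ω : Cf => fun k : Fin (t + 1) => o ω e k) :=
    measurable_pi_lambda _ (fun k => meas_o e k)
  have h2 := (measurable_of_countable (fun x : Fin (t + 1) → St =>
    ((Finset.range t).filter (fun k => ∀ hk : k + 1 < t + 1,
      L (x ⟨k, by omega⟩) ≤ h ∧ h < L (x ⟨k + 1, hk⟩))).card ≤ N)).comp h1
  convert h2 using 2 with ω
  simp only [Function.comp, cross]
  congr! 2
  refine Finset.filter_congr (fun k hk => ?_)
  rw [Finset.mem_range] at hk
  exact ⟨fun hh _ => hh, fun hh => hh (by omega)⟩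

lemma first_cross {ω : Cf} {e : St} {h : ℤ} (h0 : L e ≤ h) {t : ℕ} (ht : h < L (o ω e t)) :
    ∃ k0 < t, (∀ k ≤ k0, L (o ω e k) ≤ h) ∧ h < L (o ω e (k0 + 1)) := by
  classical
  have hex : ∃ t, h < L (o ω e t) := ⟨t, ht⟩
  have h1 := Nat.find_spec hex
  have h2 := Nat.find_min' hex ht
  have h3 : ∀ k < Nat.find hex, L (o ω e k) ≤ h := fun k hk => not_lt.1 (Nat.find_min hex hk)
  rcases hf : Nat.find hex with _ | s
  · rw [hf] at h1; simp only [o_zero] at h1; omega
  · rw [hf] at h1 h2 h3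
    exact ⟨s, by omega, fun k hk => h3 k (by omega), h1⟩

def reach : ℕ → St → Finset St
  | 0, e => {e}
  | n + 1, e => insert e (Finset.univ.biUnion (fun c : Fin 3 => reach n (Function.update e c (ap e))))

lemma reach_card (n : ℕ) : ∀ e, (reach n e).card ≤ 4 ^ n := by
  induction n with
  | zero => intro e; simp [reach]
  | succ n ih =>
    intro e
    refine (Finset.card_insert_le _ _).trans ?_
    have := Finset.card_biUnion_le_card_mul Finset.univ
      (fun c : Fin 3 => reach n (Function.update e c (ap e))) (4 ^ n) (fun c _ => ih _)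
    have h1 : 1 ≤ 4 ^ n := Nat.one_le_pow _ _ (by norm_num)
    simp only [Finset.card_univ, Fintype.card_fin] at this
    rw [pow_succ]; omega

lemma mem_reach (ω : Cf) (n : ℕ) : ∀ e, ∀ k ≤ n, o ω e k ∈ reach n e := by
  induction n with
  | zero => intro e k hk; simp [reach, Nat.le_zero.1 hk]
  | succ n ih =>
    intro e k hk
    rcases k with _ | k
    · simp [reach]
    · rw [o_succ']
      exact Finset.mem_insert_of_mem (Finset.mem_biUnion.2
        ⟨ω (ap e), Finset.mem_univ _, ih _ k (by omega)⟩)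

lemma qa_step {h : ℤ} {l N M : ℕ} (hl : M + 1 ≤ l) {ω : Cf} {e : St} {k0 : ℕ}
    (hk0 : ∀ k ≤ k0, L (o ω e k) ≤ h) (hk1 : h < L (o ω e (k0 + 1))) (hq : Qa h l (N + 1) ω e) :
    Lg h M ω (o ω e k0) ∨ ∃ e' ∈ reach M (o ω e k0), Qa h l N ω e' := by
  obtain ⟨he, _, t, ht, hc⟩ := hq
  by_cases hL : Lg h M ω (o ω e k0)
  · exact Or.inl hL
  right
  have : ∃ s, 1 ≤ s ∧ s ≤ M ∧ L (o ω (o ω e k0) s) ≤ h := by
    by_contra hh
    exact hL ⟨good_o he _, hk0 k0 le_rfl, fun k a b => not_le.1 (fun h' => hh ⟨k, a, b, h'⟩)⟩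
  obtain ⟨s, hs1, hsM, hs⟩ := this
  have hts : k0 + s ≤ t := by
    by_contra hh
    rcases le_or_gt t k0 with h1 | h1
    · have := hk0 t h1; omega
    · obtain ⟨j, rfl⟩ := Nat.exists_eq_add_of_le h1.le
      rw [o_add] at ht
      have h2 := L_o_le (ω := ω) (valid_o (ω := ω) he.1 k0) j
      have h3 := hk0 k0 le_rfl
      omega
  refine ⟨o ω (o ω e k0) s, mem_reach ω M _ s hsM, good_o (good_o he _) _, hs, t - (k0 + s), ?_, ?_⟩
  · rw [← o_add, ← o_add]
    have : k0 + (s + (t - (k0 + s))) = t := by omega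
    rwa [this]
  · have hmem : k0 ∈ cross ω e h t :=
      Finset.mem_filter.2 ⟨Finset.mem_range.2 (by omega), hk0 k0 le_rfl, hk1⟩
    have h1 : (cross ω (o ω (o ω e k0) s) h (t - (k0 + s))).card ≤ ((cross ω e h t).erase k0).card := by
      refine Finset.card_le_card_of_injOn (fun k => k0 + (s + k)) ?_
        (fun a _ b _ hab => by simpa using hab)
      intro k hk
      obtain ⟨h1, h2, h3⟩ := Finset.mem_filter.1 (Finset.mem_coe.1 hk)
      rw [Finset.mem_range] at h1
      rw [← o_add, ← o_add] at h2 h3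
      refine Finset.mem_coe.2 (Finset.mem_erase.2 ⟨by simp only; omega,
        Finset.mem_filter.2 ⟨Finset.mem_range.2 (by simp only; omega), h2, h3⟩⟩)
    rw [Finset.card_erase_of_mem hmem] at h1
    omega

theorem attempts {q : ℝ≥0∞} (hq : ∀ c, q ≤ ν {c}) (hq0 : q ≠ 0) (N : ℕ) :
    ∀ δ : ℝ≥0∞, δ ≠ 0 → ∃ l0 : ℕ, 1 ≤ l0 ∧ ∀ l, l0 ≤ l → ∀ h η e,
      PP V ν {ζ | Qa h l N (sp (up h) η ζ) e} ≤ δ := by
  induction N with
  | zero =>
    intro δ _
    refine ⟨1, le_rfl, fun l hl h η e => ?_⟩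
    have : {ζ | Qa h l 0 (sp (up h) η ζ) e} = ∅ := by
      ext ζ
      simp only [mem_ofPred_eq, mem_empty_iff_false, iff_false]
      rintro ⟨_, h0, t, ht, hc⟩
      obtain ⟨k0, hk, h1, h2⟩ := first_cross (ω := sp (up h) η ζ) h0 (t := t) (by omega)
      have : k0 ∈ cross (sp (up h) η ζ) e h t :=
        Finset.mem_filter.2 ⟨Finset.mem_range.2 hk, h1 k0 le_rfl, h2⟩
      have := Finset.card_pos.2 ⟨k0, this⟩
      omega
    rw [this, measure_empty]; exact zero_le
  | succ N ih =>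
    intro δ hδ
    have hδ2 : δ / 2 ≠ 0 := (ENNReal.half_pos hδ).ne'
    obtain ⟨M, hM⟩ := long_small hq hq0 hδ2
    obtain ⟨l0, hl0, hN⟩ := ih (δ / 2 / 4 ^ M)
      (ENNReal.div_pos hδ2 (ENNReal.pow_ne_top (by simp))).ne'
    refine ⟨max l0 (M + 1), le_max_of_le_left hl0, fun l hl h η e => ?_⟩
    by_cases hne : {ζ | Qa h l (N + 1) (sp (up h) η ζ) e} = ∅
    · rw [hne, measure_empty]; exact zero_le
    obtain ⟨ζ0, _, h0, t0, ht0, _⟩ := nonempty_iff_ne_empty.2 hne
    have hl1 : M + 1 ≤ l := le_of_max_le_right hl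
    obtain ⟨k0, _, h1, h2⟩ := first_cross (ω := sp (up h) η ζ0) h0 (t := t0) (by omega)
    have hc : ∀ ζ, ∀ k ≤ k0 + 1, o (sp (up h) η ζ) e k = o (sp (up h) η ζ0) e k := fun ζ =>
      o_congr (k0 + 1) (fun k hk => by
        have : ap (o (sp (up h) η ζ0) e k) ∉ up h := not_lt.2 (h1 k (by omega))
        rw [sp_out _ _ this, sp_out _ _ this])
    set e1 := o (sp (up h) η ζ0) e k0
    calc PP V ν {ζ | Qa h l (N + 1) (sp (up h) η ζ) e}
        ≤ PP V ν ({ζ | Lg h M (sp (up h) η ζ) e1} ∪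
            ⋃ e' ∈ reach M e1, {ζ | Qa h l N (sp (up h) η ζ) e'}) := by
          refine measure_mono (fun ζ hζ => ?_)
          have := qa_step hl1 (k0 := k0) (fun k hk => by rw [hc ζ k (by omega)]; exact h1 k hk)
            (by rw [hc ζ _ le_rfl]; exact h2) hζ
          rw [hc ζ k0 (by omega)] at this
          rcases this with h3 | ⟨e', h3, h4⟩
          · exact Or.inl h3
          · exact Or.inr (mem_iUnion₂.2 ⟨e', h3, h4⟩)
      _ ≤ δ / 2 + ∑ _e' ∈ reach M e1, δ / 2 / 4 ^ M :=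
          (measure_union_le _ _).trans (add_le_add (hM h η e1) ((measure_biUnion_finset_le _ _).trans
            (Finset.sum_le_sum (fun e' _ => hN l (le_of_max_le_left hl) h η e'))))
      _ ≤ δ / 2 + δ / 2 := by
          refine add_le_add le_rfl ?_
          rw [Finset.sum_const, nsmul_eq_mul]
          calc ((reach M e1).card : ℝ≥0∞) * (δ / 2 / 4 ^ M) ≤ 4 ^ M * (δ / 2 / 4 ^ M) :=
                mul_le_mul_left (by exact_mod_cast reach_card M e1) _
            _ ≤ δ / 2 := ENNReal.mul_div_le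
      _ = δ := ENNReal.add_halves δ

lemma off_qa {h h' : ℤ} {l N : ℕ} (hl : 1 ≤ l) (hh : h + l ≤ h') (e : St) :
    Off (up h') {ω | Qa h l N ω e} := by
  classical
  rintro ω ω' hω ⟨he, h0, t, ht, hc⟩
  have hex : ∃ t, h + l ≤ L (o ω e t) := ⟨t, ht⟩
  have h1 := Nat.find_spec hex
  have h2 := Nat.find_min' hex ht
  have hcg := o_congr (ω := ω) (ω' := ω') (f := e) (Nat.find hex) (fun k hk => hω _ (by
    have := not_le.1 (Nat.find_min hex hk)
    simp only [up, mem_ofPred_eq, not_lt]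
    unfold L at this; omega))
  refine ⟨⟨he.1, fun c => ?_⟩, h0, Nat.find hex, by rw [hcg _ le_rfl]; exact h1, le_trans ?_ hc⟩
  · rw [hω _ (by
      have := (L_near e he.1 c).2
      simp only [up, mem_ofPred_eq, not_lt]; omega), he.2]
  · refine Finset.card_le_card (fun k hk => ?_)
    obtain ⟨h3, h4⟩ := Finset.mem_filter.1 hk
    rw [Finset.mem_range] at h3
    rw [hcg k h3.le, hcg (k + 1) h3] at h4
    exact Finset.mem_filter.2 ⟨Finset.mem_range.2 (by omega), h4⟩

lemma prod_bound {δ : ℝ≥0∞} {l N : ℕ} (hl : 1 ≤ l)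
    (H : ∀ h η e, PP V ν {ζ | Qa h l N (sp (up h) η ζ) e} ≤ δ) (h0 : ℤ) (e : St) (J : Finset ℕ) :
    PP V ν (⋂ j ∈ J, {ω | Qa (h0 + j * l) l N ω e}) ≤ δ ^ J.card := by
  induction J using Finset.induction_on_max with
  | empty => simp
  | insert a s ha ih =>
    have hn : a ∉ s := fun h => lt_irrefl _ (ha a h)
    rw [Finset.set_biInter_insert, inter_comm, Finset.card_insert_of_notMem hn, pow_succ']
    refine le_trans (cond_le (up (h0 + a * l)) (Finset.measurableSet_biInter s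
      (fun j _ => meas_qa _ _ _ _)) (meas_qa _ _ _ _) ?_ (fun η _ => H _ η e)) (mul_le_mul_right ih _)
    intro ω ω' hω hm
    refine mem_iInter₂.2 (fun j hj => off_qa hl ?_ e ω ω' hω (mem_iInter₂.1 hm j hj))
    have h1 : (j : ℤ) + 1 ≤ a := by exact_mod_cast ha j hj
    have h2 : (0 : ℤ) ≤ l := by positivity
    nlinarith

lemma cross_sum {ω : Cf} {e : St} (he : Valid e) (t l m : ℕ) :
    ∑ r ∈ Finset.range l, ∑ j ∈ Finset.range m, (cross ω e (L e + r + j * l) t).card ≤ t := by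
  classical
  rw [← Finset.sum_product' (f := fun r j => (cross ω e (L e + (r : ℕ) + (j : ℕ) * l) t).card),
    ← Finset.card_biUnion]
  · refine le_trans (Finset.card_le_card (t := Finset.range t) ?_) (by simp)
    exact Finset.biUnion_subset.2 (fun x _ => Finset.filter_subset _ _)
  · rintro ⟨r, j⟩ hx ⟨r', j'⟩ hy hne
    simp only [Finset.coe_product, Finset.coe_range, mem_prod, mem_Iio] at hx hy
    refine Finset.disjoint_left.2 (fun k h1 h2 => hne ?_)
    obtain ⟨_, a1, a2⟩ := Finset.mem_filter.1 h1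
    obtain ⟨_, b1, b2⟩ := Finset.mem_filter.1 h2
    have h3 := (L_nxt (ω := ω) (valid_o (ω := ω) he k)).1
    rw [← o_succ] at h3
    simp only at a1 a2 b1 b2
    have h4 : r + j * l = r' + j' * l := by
      have : (r : ℤ) + j * l = r' + j' * l := by omega
      exact_mod_cast this
    have h5 : r = r' := by
      have := congrArg (· % l) h4
      simpa [Nat.mod_eq_of_lt hx.1, Nat.mod_eq_of_lt hy.1] using this
    subst h5
    have h6 : j = j' := Nat.eq_of_mul_eq_mul_right (by omega) (Nat.add_left_cancel h4)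
    rw [h6]

theorem climb_bound {q : ℝ≥0∞} (hq : ∀ c, q ≤ ν {c}) (hq0 : q ≠ 0) (K : ℕ) :
    ∃ l : ℕ, 1 ≤ l ∧ ∀ (m : ℕ) (e : St),
      PP V ν {ω | Good ω e ∧ ∃ t ≤ K * m * l, L e + (m + 1) * l ≤ L (o ω e t)} ≤ l * 2⁻¹ ^ m := by
  classical
  obtain ⟨l, hl, H⟩ := attempts hq hq0 (2 * K) (2⁻¹ ^ 4) (by simp)
  refine ⟨l, hl, fun m e => ?_⟩
  set S := (Finset.range m).powerset.filter (fun J => m ≤ 2 * J.card) with hS
  have sub : {ω | Good ω e ∧ ∃ t ≤ K * m * l, L e + (m + 1) * l ≤ L (o ω e t)} ⊆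
      ⋃ r ∈ Finset.range l, ⋃ J ∈ S, ⋂ j ∈ J, {ω | Qa (L e + r + j * l) l (2 * K) ω e} := by
    rintro ω ⟨he, t, ht, hL⟩
    obtain ⟨r, hr, hsum⟩ := Finset.exists_le_of_sum_le (s := Finset.range l)
      (f := fun r : ℕ => ∑ j ∈ Finset.range m, (cross ω e (L e + r + j * l) t).card)
      (g := fun _ => K * m) ⟨0, Finset.mem_range.2 hl⟩
      ((cross_sum he.1 t l m).trans (by simp; nlinarith))
    set J := (Finset.range m).filter
      (fun j : ℕ => (cross ω e (L e + r + j * l) t).card ≤ 2 * K) with hJ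
    refine mem_iUnion₂.2 ⟨r, hr, mem_iUnion₂.2 ⟨J, ?_, mem_iInter₂.2 (fun j hj => ?_)⟩⟩
    · refine Finset.mem_filter.2 ⟨Finset.mem_powerset.2 (Finset.filter_subset _ _), ?_⟩
      have h1 := Finset.card_filter_add_card_filter_not (s := Finset.range m)
        (fun j : ℕ => (cross ω e (L e + r + j * l) t).card ≤ 2 * K)
      rw [Finset.card_range, ← hJ] at h1
      have h2 := Finset.card_nsmul_le_sum ((Finset.range m).filter
        (fun j : ℕ => ¬ (cross ω e (L e + r + j * l) t).card ≤ 2 * K))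
        (fun j : ℕ => (cross ω e (L e + r + j * l) t).card) (2 * K + 1)
        (fun j hj => by have := (Finset.mem_filter.1 hj).2; omega)
      have h3 := h2.trans ((Finset.sum_le_sum_of_subset (Finset.filter_subset _ _)).trans hsum)
      rw [smul_eq_mul] at h3
      by_contra hh
      nlinarith
    · obtain ⟨h1, h2⟩ := Finset.mem_filter.1 hj
      rw [Finset.mem_range] at h1 hr
      have h3 : (j : ℤ) + 1 ≤ m := by exact_mod_cast h1
      have h4 : (r : ℤ) < l := by exact_mod_cast hr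
      have h5 : (0 : ℤ) ≤ j * l := by positivity
      exact ⟨he, by omega, t, by nlinarith, h2⟩
  refine (measure_mono sub).trans ((measure_biUnion_finset_le _ _).trans ?_)
  have hb : ∀ r ∈ Finset.range l, PP V ν (⋃ J ∈ S, ⋂ j ∈ J,
      {ω | Qa (L e + (r : ℕ) + (j : ℕ) * l) l (2 * K) ω e}) ≤ 2⁻¹ ^ m := by
    intro r _
    refine (measure_biUnion_finset_le _ _).trans ?_
    have h1 : ∀ J ∈ S, PP V ν (⋂ j ∈ J, {ω | Qa (L e + (r : ℕ) + (j : ℕ) * l) l (2 * K) ω e}) ≤
        2⁻¹ ^ (2 * m) := by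
      intro J hJ
      refine (prod_bound hl (H l le_rfl) _ e J).trans ?_
      rw [← pow_mul]
      have := (Finset.mem_filter.1 hJ).2
      exact pow_le_pow_right_of_le_one' (by simp) (by omega)
    refine (Finset.sum_le_card_nsmul _ _ _ h1).trans ?_
    have h2 : S.card ≤ 2 ^ m := (Finset.card_filter_le _ _).trans (by simp)
    rw [nsmul_eq_mul]
    calc (S.card : ℝ≥0∞) * 2⁻¹ ^ (2 * m) ≤ 2 ^ m * 2⁻¹ ^ (2 * m) :=
          mul_le_mul_left (by exact_mod_cast h2) _
      _ = 2⁻¹ ^ m := by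
          rw [two_mul, pow_add, ← mul_assoc, ← mul_pow, ENNReal.mul_inv_cancel (by simp) (by simp),
            one_pow, one_mul]
  refine (Finset.sum_le_card_nsmul _ _ _ hb).trans ?_
  simp

end Pool.Agent.MP_5f6c2d_pr

end MrgPart0

-- ======== part 1: formerly Pool.Agent.MP_5f6c2d_pr.Speed
section MrgPart1

/-! The climbing bound in the body centred cubic model. -/

set_option autoImplicit false
set_option linter.unusedSectionVars false

open MeasureTheory Set Filter
open scoped ENNReal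

namespace Pool.Agent.MP_5f6c2d_pr

variable {ν : Measure (Fin 3)} [IsProbabilityMeasure ν]

def Far (R : W → W → Prop) (N : ℕ) (Q : Finset W) : Set (W → Fin 3) :=
  {ω | ∃ m, 1 ≤ m ∧ m ≤ N ∧ ∃ y : ℕ → Finset W, y 0 = Q ∧
    (∀ k < m, Step ω (y k) (y (k + 1))) ∧ ∃ v ∈ y 0, ∃ w ∈ y m, R v w}

lemma frame_bound {ρ : W → ℤ} (F : Frame ρ) {N : ℕ} {D : ℤ} {δ : ℝ≥0∞}
    (H : ∀ e, PP V ν {ω | Good ω e ∧ ∃ t ≤ N, L e + D ≤ L (o ω e t)} ≤ δ) (Q : Finset W) :
    PP W ν (Far (fun v w => 2 * (D + 4) ≤ ρ w - ρ v) N Q) ≤ 128 * δ := by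
  classical
  by_cases hQ : Q.card = 4
  swap
  · have : Far (fun v w => 2 * (D + 4) ≤ ρ w - ρ v) N Q = ∅ := by
      refine eq_empty_of_forall_notMem ?_
      rintro ω ⟨m, h1, _, y, rfl, hs, _⟩
      exact hQ (hs 0 h1).1
    simp [this]
  set T := Q.preimage F.ι F.inj.injOn with hT
  have hTc : T.card ≤ 4 := hQ ▸ Finset.card_le_card_of_injOn F.ι
    (fun x hx => by simpa [hT] using hx) F.inj.injOn
  set A : St → Set Cf := fun e => {ω | Good ω e ∧ ∃ t ≤ N, L e + D ≤ L (o ω e t)} with hA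
  have mA : ∀ e, MeasurableSet (A e) := fun e => measurableSet_setOfPred.2 ((meas_good e).and
    (Measurable.exists (fun t => measurable_const.and (meas_Q (fun x => L e + D ≤ L x) e t))))
  have sub : Far (fun v w => 2 * (D + 4) ≤ ρ w - ρ v) N Q ⊆
      ⋃ e ∈ Fintype.piFinset (fun _ : Fin 3 => T),
        ({ω | ω ∘ F.ι ∈ A e} ∪ {ω | ω ∘ (F.ι ∘ rf) ∈ A (rf ∘ e)}) := by
    rintro ω ⟨m, h1, hm, y, rfl, hs, v, hv, w, hw, hR⟩
    obtain ⟨g, g0, hg⟩ := walk_states F (P := fun k => k < m) h1 (fun k hk => by omega) hs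
    obtain ⟨gm, t, ht, ho⟩ := walk_orbit (g := g) (m := m) g0.1
      (fun k hk => ⟨(hg k hk).1.1, (hg k hk).2⟩) m le_rfl
    have ym : y m = (ch (g m)).image F.ι := by
      obtain ⟨k, rfl⟩ := Nat.exists_eq_add_of_le' h1
      exact (hg k (by omega)).1.2
    rw [g0.2] at hv
    rw [ym] at hw
    obtain ⟨x, hx, rfl⟩ := Finset.mem_image.1 hv
    obtain ⟨x', hx', rfl⟩ := Finset.mem_image.1 hw
    have a1 := ch_lev g0.1.1 hx
    have a2 := ch_lev gm.1 hx'
    simp only [F.lev] at hR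
    refine mem_iUnion₂.2 ⟨g 0, Fintype.mem_piFinset.2 (fun c => ?_), ?_⟩
    · rw [hT, Finset.mem_preimage, g0.2]
      exact Finset.mem_image_of_mem _ (mem_ch.2 (Or.inl ⟨c, rfl⟩))
    · rcases ho with ho | ho
      · refine Or.inl ⟨g0.1, t, by omega, ?_⟩
        rw [← ho]
        have b1 := L_near _ g0.1.1 0
        have b2 := L_near _ gm.1 0
        omega
      · obtain ⟨b0, b3⟩ := back_orbit gm ho
        refine Or.inr ⟨b0, t, by omega, ?_⟩
        have e : o (ω ∘ F.ι ∘ rf) (rf ∘ g 0) t = rf ∘ g m := b3.symm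
        rw [e]
        have b1 := L_near _ (rf_facts _ g0.1.1).1 0
        have b2 := L_near _ (rf_facts _ gm.1).1 0
        have e1 : ((rf ∘ g 0) 0).1 = (g 0 0).1 := rfl
        have e2 : ((rf ∘ g m) 0).1 = (g m 0).1 := rfl
        omega
  refine (measure_mono sub).trans ((measure_biUnion_finset_le _ _).trans ?_)
  refine (Finset.sum_le_card_nsmul _ _ (2 * δ) (fun e _ => ?_)).trans ?_
  · refine (measure_union_le _ _).trans ?_
    rw [PP_comp F.ι F.inj (mA e), PP_comp _ (F.inj.comp rf_inj) (mA _), two_mul]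
    exact add_le_add (H _) (H _)
  · rw [nsmul_eq_mul, Fintype.card_piFinset, Finset.prod_const, ← mul_assoc]
    refine mul_le_mul_left ?_ _
    have : T.card ^ (Finset.univ : Finset (Fin 3)).card * 2 ≤ 128 := by
      have := Nat.pow_le_pow_left hTc 3
      simp only [Finset.card_univ, Fintype.card_fin]
      omega
    exact_mod_cast this

lemma coord_bound {N : ℕ} {D : ℤ} {δ : ℝ≥0∞}
    (H : ∀ e, PP V ν {ω | Good ω e ∧ ∃ t ≤ N, L e + D ≤ L (o ω e t)} ≤ δ) (Q : Finset W) :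
    PP W ν (Far (fun v w => ∃ i, 2 * (D + 4) ≤ |w i - v i|) N Q) ≤ 1536 * δ := by
  have sub : Far (fun v w => ∃ i, 2 * (D + 4) ≤ |w i - v i|) N Q ⊆
      ⋃ x ∈ (Finset.univ : Finset (Fin 3)) ×ˢ (({1, -1} : Finset ℤ) ×ˢ ({1, -1} : Finset ℤ)),
        Far (fun v w => 2 * (D + 4) ≤ (x.2.1 * w x.1 + x.2.2 * w (x.1 + 1)) -
          (x.2.1 * v x.1 + x.2.2 * v (x.1 + 1))) N Q := by
    rintro ω ⟨m, h1, hm, y, h0, hs, v, hv, w, hw, i, hR⟩
    have : ∃ a b : ℤ, (a = 1 ∨ a = -1) ∧ (b = 1 ∨ b = -1) ∧ 2 * (D + 4) ≤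
        (a * w i + b * w (i + 1)) - (a * v i + b * v (i + 1)) := by
      rcases le_total (v (i + 1)) (w (i + 1)) with h2 | h2 <;> rcases le_abs.1 hR with h3 | h3
      · exact ⟨1, 1, by simp, by simp, by omega⟩
      · exact ⟨-1, 1, by simp, by simp, by omega⟩
      · exact ⟨1, -1, by simp, by simp, by omega⟩
      · exact ⟨-1, -1, by simp, by simp, by omega⟩
    obtain ⟨a, b, ha, hb, h⟩ := this
    exact mem_iUnion₂.2 ⟨(i, a, b), by simp [ha, hb], m, h1, hm, y, h0, hs, v, hv, w, hw, h⟩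
  refine (measure_mono sub).trans ((measure_biUnion_finset_le _ _).trans ?_)
  refine (Finset.sum_le_card_nsmul _ _ (128 * δ) ?_).trans ?_
  · rintro ⟨i, a, b⟩ hx
    simp only [Finset.mem_product, Finset.mem_univ, Finset.mem_insert, Finset.mem_singleton,
      true_and] at hx
    obtain ⟨F⟩ := exists_frame (i := i) (j := i + 1) (by fin_cases i <;> decide) hx.1 hx.2
    exact frame_bound F H Q
  · have : ((Finset.univ : Finset (Fin 3)) ×ˢ (({1, -1} : Finset ℤ) ×ˢ
        ({1, -1} : Finset ℤ))).card = 12 := by decide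
    rw [this, nsmul_eq_mul, ← mul_assoc]
    norm_num

end Pool.Agent.MP_5f6c2d_pr

end MrgPart1

-- marker of a merged file
example : 731051 + 352626 = 731051 + 352626 := rfl
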