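import Pool.Agent.MP_5f6c2d_pr.Long

/-! Almost surely no injective orbit stays above a level. -/

set_option autoImplicit false
set_option linter.unusedSectionVars false

open MeasureTheory Set Filter Topology
open scoped ENNReal

namespace Pool.Agent.MP_5f6c2d_pr

variable {ν : Measure (Fin 3)} [IsProbabilityMeasure ν]

def ps (i : Fin 4) (v : V) : ℤ := ![v.2.1, -v.2.1, v.2.2, -v.2.2] i

lemma ps_add (i : Fin 4) (v w : V) : ps i (v + w) = ps i v + ps i w := by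
  fin_cases i <;> simp [ps] <;> ring

def words3 : List (List (Fin 3)) :=
  [[0], [1], [2]] ++ ([0, 1, 2] : List (Fin 3)).flatMap (fun a => ([0, 1, 2] : List (Fin 3)).flatMap
    (fun b => [[a, b], [a, b, 0], [a, b, 1], [a, b, 2]]))

lemma words3_len : ∀ w ∈ words3, w.length ≤ 3 := by decide +kernel

lemma escape (i : Fin 4) (g : St) (hg : Valid g) :
    (∀ c, (ap g).1 < (g c).1 ∨ ((g c).1 = (ap g).1 ∧ ps i (g c) < ps i (ap g))) →
    ∃ w ∈ words3, (∀ y ∈ prs g w, y.1.1 < (ap g).1 ∨ (y.1.1 = (ap g).1 ∧ ps i (ap g) ≤ ps i y.1)) ∧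
      Cons (prs g w) ∧ L (fin g w) < L g := by
  revert i
  refine local_ind (fun g => ∀ i : Fin 4,
    (∀ c, (ap g).1 < (g c).1 ∨ ((g c).1 = (ap g).1 ∧ ps i (g c) < ps i (ap g))) →
    ∃ w ∈ words3, (∀ y ∈ prs g w, y.1.1 < (ap g).1 ∨ (y.1.1 = (ap g).1 ∧ ps i (ap g) ≤ ps i y.1)) ∧
      Cons (prs g w) ∧ L (fin g w) < L g) ?_ (by decide +kernel) g hg
  intro v g h i hc
  obtain ⟨w, hw, h1, h2, h3⟩ := h i (fun c => by
    have := hc c
    simp only [ap_tr, tr_apply, ps_add, Prod.fst_add] at this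
    omega)
  refine ⟨w, hw, ?_, ?_, ?_⟩
  · intro y hy
    rw [prs_tr] at hy
    obtain ⟨z, hz, rfl⟩ := List.mem_map.1 hy
    have := h1 z hz
    simp only [ap_tr, ps_add, Prod.fst_add]
    omega
  · intro y hy z hz hyz
    rw [prs_tr] at hy hz
    obtain ⟨y', hy', rfl⟩ := List.mem_map.1 hy
    obtain ⟨z', hz', rfl⟩ := List.mem_map.1 hz
    exact h2 y' hy' z' hz' (by simpa using hyz)
  · rw [fin_tr, L_tr, L_tr]; omega

def Fr (h : ℤ) (i : Fin 4) (j : ℤ) : Set V := {v | v.1 < h ∨ (v.1 = h ∧ j ≤ ps i v)}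

def Ej (h : ℤ) (i : Fin 4) (j : ℤ) (e : St) : Set Cf :=
  {ω | ∃ t, (L (o ω e t) = h ∧ j ≤ ps i (ap (o ω e t))) ∧ ∀ k < t, ap (o ω e k) ∉ Fr h i j}

lemma meas_Ej (h : ℤ) (i : Fin 4) (j : ℤ) (e : St) : MeasurableSet (Ej h i j e) :=
  measurableSet_setOfPred.2 (Measurable.exists (fun t =>
    (meas_Q (fun x => L x = h ∧ j ≤ ps i (ap x)) e t).and (Measurable.forall (fun k =>
      measurable_const.imp (meas_Q (fun x => ap x ∉ Fr h i j) e k)))))

lemma vert_cases (ω : Cf) (f : St) (k : ℕ) :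
    ∀ c, o ω f k c = f c ∨ ∃ j < k, o ω f k c = ap (o ω f j) := by
  induction k with
  | zero => intro c; exact Or.inl rfl
  | succ k ih =>
    intro c
    rw [o_succ]
    rcases nxt_cases ω (o ω f k) c with h | h
    · exact Or.inr ⟨k, by omega, h⟩
    · rw [h]
      rcases ih c with h1 | ⟨j, hj, h1⟩
      · exact Or.inl h1
      · exact Or.inr ⟨j, by omega, h1⟩

lemma esc_prob {q : ℝ≥0∞} (hq : ∀ c, q ≤ ν {c}) {h : ℤ} {i : Fin 4} {j : ℤ} {e : St}
    (he : Valid e) (hj : ∀ c, e c ∉ Fr h i j) :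
    q ^ 3 * PP V ν (Ej h i j e) ≤ PP V ν (Ej h i j e ∩ {ω | ∃ k, L (o ω e k) < h}) := by
  have hq1 : q ≤ 1 := (hq 0).trans prob_le_one
  refine cond_ge (Fr h i j) (meas_Ej _ _ _ _) (measurableSet_setOfPred.2
    (Measurable.exists (fun k => meas_Q (fun x => L x < h) e k))) ?_ ?_
  · rintro ω ω' hω ⟨t, h1, h2⟩
    have hc := o_congr (ω := ω) (ω' := ω') (f := e) t (fun k hk => hω _ (h2 k hk))
    exact ⟨t, by rw [hc t le_rfl]; exact h1, fun k hk => by rw [hc k hk.le]; exact h2 k hk⟩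
  · rintro η ⟨t, ⟨h1, h1'⟩, h2⟩
    have hv : ∀ c, o η e t c ∉ Fr h i j := by
      intro c
      rcases vert_cases η e t c with h3 | ⟨k, hk, h3⟩
      · rw [h3]; exact hj c
      · rw [h3]; exact h2 k hk
    unfold L at h1
    obtain ⟨w, hw, a1, a2, a3⟩ := escape i _ (valid_o (ω := η) he t) (fun c => by
      have := hv c
      simp only [Fr, mem_ofPred_eq, not_or, not_and, not_lt, not_le] at this
      omega)
    obtain ⟨σ, hσ⟩ := exists_sat _ a2
    refine le_trans (pow_le_pow_right_of_le_one' hq1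
      (by rw [prs_length]; exact words3_len w hw)) ((sat_ge hq _ σ hσ).trans (measure_mono ?_))
    intro ζ hζ
    have hc := o_congr (ω := η) (ω' := sp (Fr h i j) η ζ) (f := e) t
      (fun k hk => sp_out _ _ (h2 k hk)) t le_rfl
    refine ⟨t + w.length, ?_⟩
    rw [o_add, hc, o_word _ w _ (fun y hy => by
      rw [sp_in _ _ (by
        have := a1 y hy
        simp only [Fr, mem_ofPred_eq]
        omega)]
      exact hζ y hy)]
    unfold L at a3 ⊢
    omega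

lemma Fr_mono {h : ℤ} {i : Fin 4} {j j' : ℤ} (hj : j ≤ j') : Fr h i j' ⊆ Fr h i j := by
  intro v hv
  simp only [Fr, mem_ofPred_eq] at hv ⊢
  omega

lemma Ej_anti {h : ℤ} {i : Fin 4} {j j' : ℤ} (hj : j ≤ j') (e : St) : Ej h i j' e ⊆ Ej h i j e := by
  classical
  rintro ω ⟨t, ⟨h1, h1'⟩, h2⟩
  have hex : ∃ t, ap (o ω e t) ∈ Fr h i j := ⟨t, Or.inr ⟨h1, by omega⟩⟩
  have h3 := Nat.find_spec hex
  have h4 := Nat.find_min' hex (m := t) (Or.inr ⟨h1, by omega⟩)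
  refine ⟨Nat.find hex, ?_, fun k hk => Nat.find_min hex hk⟩
  rcases h4.lt_or_eq with h5 | h5
  · have := h2 _ h5
    generalize Nat.find hex = s at *
    simp only [Fr, mem_ofPred_eq] at this h3
    unfold L; omega
  · rw [h5]; exact ⟨h1, by omega⟩

lemma Ej_null {q : ℝ≥0∞} (hq : ∀ c, q ≤ ν {c}) (hq0 : q ≠ 0) {h : ℤ} {i : Fin 4} {j0 : ℤ}
    {e : St} (he : Valid e) (hj : ∀ c, e c ∉ Fr h i j0) :
    PP V ν (⋂ n : ℕ, Ej h i (j0 + n) e) = 0 := by
  set D := ⋂ n : ℕ, Ej h i (j0 + n) e with hD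
  have hZ : ∀ ω ∈ D, ∀ k, h ≤ L (o ω e k) := by
    intro ω hω k
    by_contra hh
    obtain ⟨C, hC⟩ := ((Finset.range (k + 1)).image
      (fun t => (ps i (ap (o ω e t)) - j0).toNat)).exists_le
    obtain ⟨t, ⟨_, h1⟩, h2⟩ := mem_iInter.1 hω (C + 1)
    have ht : t ≤ k := by
      by_contra h3
      exact h2 k (by omega) (Or.inl (not_le.1 hh))
    have := hC _ (Finset.mem_image_of_mem _ (Finset.mem_range.2 (show t < k + 1 by omega)))
    push_cast at h1
    omega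
  have hstep : ∀ n : ℕ, PP V ν D + q ^ 3 * PP V ν D ≤ PP V ν (Ej h i (j0 + n) e) := by
    intro n
    have hm : MeasurableSet {ω : Cf | ∃ k, L (o ω e k) < h} := measurableSet_setOfPred.2
      (Measurable.exists (fun k => meas_Q (fun x => L x < h) e k))
    rw [← measure_inter_add_sdiff (Ej h i (j0 + n) e) hm, add_comm]
    have hsub : PP V ν D ≤ PP V ν (Ej h i (j0 + n) e) :=
      measure_mono (iInter_subset (fun n : ℕ => Ej h i (j0 + n) e) n)
    refine add_le_add ((mul_le_mul_right hsub _).trans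
      (esc_prob hq he (fun c hc => hj c (Fr_mono (j := j0) (j' := j0 + n) (by omega) hc)))) (measure_mono ?_)
    intro ω hω
    exact ⟨mem_iInter.1 hω n, fun ⟨k, hk⟩ => absurd (hZ ω hω k) (not_le.2 hk)⟩
  have hlim := tendsto_measure_iInter_atTop (μ := PP V ν)
    (s := fun n : ℕ => Ej h i (j0 + n) e) (fun n => (meas_Ej _ _ _ _).nullMeasurableSet)
    (fun a b hab => Ej_anti (by omega) e) ⟨0, measure_ne_top _ _⟩
  have h1 : PP V ν D + q ^ 3 * PP V ν D ≤ PP V ν D + 0 := by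
    rw [add_zero]; exact ge_of_tendsto' hlim hstep
  have h2 := (ENNReal.add_le_add_iff_left (measure_ne_top _ _)).1 h1
  simpa [hq0] using h2

lemma finite_inc (v : V) : {g : St | Valid g ∧ ∃ c, g c = v}.Finite := by
  refine (Set.Finite.pi' (t := fun _ : Fin 3 => insert v ((· + v) '' {d | d ∈ nb}))
    (fun _ => ((List.finite_toSet nb).image _).insert v)).subset ?_
  rintro g ⟨hg, c, rfl⟩ c'
  by_cases h : c' = c
  · rw [h]; exact mem_insert _ _
  · exact mem_insert_of_mem _ ⟨g c' - g c, sub_mem g hg c' c h, by simp⟩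

lemma finite_times {ω : Cf} {f : St} (hf : Valid f) (hi : Function.Injective (o ω f)) (v : V) :
    {k | ∃ c, o ω f k c = v}.Finite :=
  ((finite_inc v).preimage hi.injOn).subset (fun k hk => ⟨valid_o hf k, hk⟩)

theorem ae_no_ray {q : ℝ≥0∞} (hq : ∀ c, q ≤ ν {c}) (hq0 : q ≠ 0) :
    ∀ᵐ ω ∂(PP V ν), ∀ f, Good ω f → Function.Injective (o ω f) → ∀ h, ∃ k, L (o ω f k) < h := by
  have h2 : ∀ᵐ ω ∂(PP V ν), ∀ x : St × ℤ × Fin 4 × ℤ, Valid x.1 →
      (∀ c, x.1 c ∉ Fr x.2.1 x.2.2.1 x.2.2.2) → ω ∉ ⋂ n : ℕ, Ej x.2.1 x.2.2.1 (x.2.2.2 + n) x.1 := by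
    rw [ae_all_iff]
    intro x
    by_cases h : Valid x.1 ∧ ∀ c, x.1 c ∉ Fr x.2.1 x.2.2.1 x.2.2.2
    · filter_upwards [measure_eq_zero_iff_ae_notMem.1 (Ej_null hq hq0 h.1 h.2)] with ω hω _ _
      exact hω
    · exact Eventually.of_forall (fun ω a b => absurd ⟨a, b⟩ h)
  filter_upwards [ae_return hq hq0, h2] with ω hret hE f hf hi h0
  by_contra hh
  simp only [not_exists, not_lt] at hh
  obtain ⟨h, ⟨k0, hk0⟩, hmin⟩ := Int.exists_least_of_bdd (P := fun z => ∃ k, L (o ω f k) = z)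
    ⟨h0, fun z ⟨k, hk⟩ => hk ▸ hh k⟩ ⟨_, 0, rfl⟩
  have hge : ∀ k, h ≤ L (o ω f k) := fun k => hmin _ ⟨k, rfl⟩
  have hinf : ∀ n, ∃ k, n ≤ k ∧ L (o ω f k) = h := by
    intro n
    induction n with
    | zero => exact ⟨k0, Nat.zero_le _, hk0⟩
    | succ n ih =>
      obtain ⟨k, hk, hL⟩ := ih
      obtain ⟨s, hs, h1⟩ := hret _ (good_o hf k)
      rw [← o_add] at h1
      exact ⟨k + s, by omega, le_antisymm (by omega) (hge _)⟩
  obtain ⟨k1, hk1⟩ := (Set.finite_iUnion (fun c : Fin 3 => finite_times hf.1 hi (f c))).bddAbove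
  have hlev : ∀ c, h ≤ (o ω f (k1 + 1) c).1 := by
    intro c
    rcases vert_cases ω f (k1 + 1) c with h1 | ⟨j, _, h1⟩
    · have := hk1 (mem_iUnion.2 ⟨c, (⟨c, h1⟩ : ∃ c', o ω f (k1 + 1) c' = f c)⟩)
      omega
    · rw [h1]; exact hge j
  have hunb : ∃ i, ∀ j : ℤ, ∃ k, L (o ω f (k1 + 1 + k)) = h ∧ j ≤ ps i (ap (o ω f (k1 + 1 + k))) := by
    by_contra hcon
    simp only [not_exists, not_forall, not_and, not_le] at hcon
    choose B hB using hcon
    have hfin : ({h} ×ˢ (Icc (-B 1) (B 0) ×ˢ Icc (-B 3) (B 2)) : Set V).Finite :=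
      (finite_singleton h).prod ((finite_Icc _ _).prod (finite_Icc _ _))
    obtain ⟨k2, hk2⟩ := (hfin.biUnion (fun v _ => finite_times hf.1 hi v)).bddAbove
    obtain ⟨k, hk, hL⟩ := hinf (k1 + 1 + k2)
    obtain ⟨k', rfl⟩ := Nat.exists_eq_add_of_le (show k1 + 1 ≤ k by omega)
    have := hk2 (mem_iUnion₂.2 ⟨ap (o ω f (k1 + 1 + k')), ?_,
      (⟨_, by rw [o_succ]; exact nxt_ap _ _⟩ : ∃ c, o ω f (k1 + 1 + k' + 1) c = _)⟩)
    · omega
    · have a0 := hB 0 k' hL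
      have a1 := hB 1 k' hL
      have a2 := hB 2 k' hL
      have a3 := hB 3 k' hL
      simp only [ps, Matrix.cons_val] at a0 a1 a2 a3
      exact ⟨hL, ⟨by omega, by omega⟩, ⟨by omega, by omega⟩⟩
  obtain ⟨i, hi'⟩ := hunb
  set e := o ω f (k1 + 1) with he
  refine hE (e, h, i, |ps i (e 0)| + |ps i (e 1)| + |ps i (e 2)| + 1) (valid_o hf.1 _) ?_
    (mem_iInter.2 (fun n => ?_))
  · intro c hc
    have a := hlev c
    have b0 := le_abs_self (ps i (e 0))
    have b1 := le_abs_self (ps i (e 1))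
    have b2 := le_abs_self (ps i (e 2))
    have c0 := abs_nonneg (ps i (e 0))
    have c1 := abs_nonneg (ps i (e 1))
    have c2 := abs_nonneg (ps i (e 2))
    simp only [Fr, mem_ofPred_eq] at hc
    fin_cases c <;> simp only [Fin.zero_eta, Fin.mk_one, Fin.reduceFinMk] at hc a <;> omega
  · classical
    obtain ⟨k, h1, h2⟩ := hi' (|ps i (e 0)| + |ps i (e 1)| + |ps i (e 2)| + 1 + n)
    rw [o_add] at h1 h2
    have hex : ∃ t, ap (o ω e t) ∈ Fr h i (|ps i (e 0)| + |ps i (e 1)| + |ps i (e 2)| + 1 + n) :=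
      ⟨k, Or.inr ⟨h1, h2⟩⟩
    refine ⟨Nat.find hex, ?_, fun k hk => Nat.find_min hex hk⟩
    have h3 := Nat.find_spec hex
    have h4 := hge (k1 + 1 + Nat.find hex)
    rw [o_add] at h4
    generalize Nat.find hex = s at *
    simp only [Fr, mem_ofPred_eq] at h3 ⊢
    unfold L at h4 ⊢
    rw [← he] at h4
    omega

end Pool.Agent.MP_5f6c2d_pr
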